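import Mathlib

set_option autoImplicit false

open Filter Topology
open scoped ENNReal

namespace Pool.Agent.J4H86.LF

universe u

/-- the normed dual of a real normed space -/
def Dual (X : Type u) [NormedAddCommGroup X] [NormedSpace ℝ X] : Type u := StrongDual ℝ X

variable {X : Type u} [NormedAddCommGroup X] [NormedSpace ℝ X]

noncomputable instance instDualGroup : NormedAddCommGroup (Dual X) :=
  (ContinuousLinearMap.toNormedAddCommGroup : NormedAddCommGroup (X →L[ℝ] ℝ))
noncomputable instance instDualSpace : NormedSpace ℝ (Dual X) :=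
  (ContinuousLinearMap.toNormedSpace : NormedSpace ℝ (X →L[ℝ] ℝ))

/-- the value of a functional -/
def Dual.app (f : Dual X) (x : X) : ℝ := (show StrongDual ℝ X from f) x

theorem Dual.app_le (f : Dual X) (x : X) : |f.app x| ≤ ‖f‖ * ‖x‖ :=
  (show StrongDual ℝ X from f).le_opNorm x

theorem J_bound (x : X) (f : Dual X) : ‖f.app x‖ ≤ ‖x‖ * ‖f‖ := by
  rw [mul_comm]
  exact f.app_le x

/-- the canonical embedding into the bidual -/
noncomputable def J (x : X) : Dual (Dual X) :=
  (LinearMap.mkContinuous
    { toFun := fun f : Dual X => f.app x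
      map_add' := fun _ _ => rfl
      map_smul' := fun _ _ => rfl } ‖x‖ (J_bound x) : StrongDual ℝ (Dual X))

theorem J_app (x : X) (f : Dual X) : (J x).app f = f.app x := rfl

/-- `pt x` is the function `f ↦ f(x)` on the dual. The weak topology of `X` is the one induced by
`pt` from the product topology of `Dual X → ℝ`. -/
def pt (x : X) : Dual X → ℝ := fun f => f.app x

/-- the weak-star closure in the bidual of the canonical image of `A`: the weak-star topology is
the topology of pointwise convergence on `Dual X` -/
def bidualClosure (A : Set X) : Set (Dual (Dual X)) := {φ | φ.app ∈ closure (pt '' A)}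

/-- `sup_{a ∈ A} dist(a, B)` -/
noncomputable def excess {Y : Type u} [PseudoEMetricSpace Y] (A B : Set Y) : ℝ≥0∞ :=
  ⨆ a ∈ A, Metric.infEDist a B

/-- De Blasi's measure of weak non-compactness: the infimum of `excess A K` over the weakly compact
sets `K` -/
noncomputable def deBlasi (A : Set X) : ℝ≥0∞ :=
  ⨅ (K : Set X) (_ : IsCompact (pt '' K)), excess A K

/-- the measure `wk` -/
noncomputable def wk (A : Set X) : ℝ≥0∞ := excess (bidualClosure A) (Set.range J)

/-- the oscillation of a sequence -/
noncomputable def osc (x : ℕ → X) : ℝ≥0∞ := ⨅ n : ℕ, Metric.ediam (x '' Set.Ici n)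

/-- the set of weak-star cluster points in the bidual of a sequence -/
def clusterSet (x : ℕ → X) : Set (Dual (Dual X)) :=
  {φ | MapClusterPt φ.app atTop (fun n => pt (x n))}

end Pool.Agent.J4H86.LF
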