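import Mathlib

set_option autoImplicit false
set_option linter.unusedSectionVars false

open Filter Topology
open scoped Classical

namespace Pool.Agent.J4H86.LF

universe u
variable {M : Type u} [MetricSpace M]

/-- `f` is 1-Lipschitz and vanishes at `o` -/
def L1 (o : M) (f : M → ℝ) : Prop := f o = 0 ∧ ∀ x y, |f x - f y| ≤ dist x y

/-- pairing of a finitely supported measure and a function -/
noncomputable def pr (μ : M →₀ ℝ) (f : M → ℝ) : ℝ := ∑ x ∈ μ.support, μ x * f x

theorem pr_add (μ : M →₀ ℝ) (f g : M → ℝ) : pr μ (fun x => f x + g x) = pr μ f + pr μ g := by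
  unfold pr
  rw [← Finset.sum_add_distrib]
  exact Finset.sum_congr rfl (fun x _ => by ring)

theorem pr_sub (μ : M →₀ ℝ) (f g : M → ℝ) : pr μ (fun x => f x - g x) = pr μ f - pr μ g := by
  unfold pr
  rw [← Finset.sum_sub_distrib]
  exact Finset.sum_congr rfl (fun x _ => by ring)

theorem pr_mul (μ : M →₀ ℝ) (c : ℝ) (f : M → ℝ) : pr μ (fun x => c * f x) = c * pr μ f := by
  unfold pr
  rw [Finset.mul_sum]
  exact Finset.sum_congr rfl (fun x _ => by ring)

theorem pr_congr (μ : M →₀ ℝ) (f g : M → ℝ) (h : ∀ x ∈ μ.support, f x = g x) :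
    pr μ f = pr μ g := by
  unfold pr
  exact Finset.sum_congr rfl (fun x hx => by rw [h x hx])

/-- total variation -/
noncomputable def tv (μ : M →₀ ℝ) : ℝ := ∑ x ∈ μ.support, |μ x|

theorem pr_le (μ : M →₀ ℝ) (f : M → ℝ) (η : ℝ) (h : ∀ x ∈ μ.support, |f x| ≤ η) :
    |pr μ f| ≤ η * tv μ := by
  unfold pr tv
  refine (Finset.abs_sum_le_sum_abs _ _).trans ?_
  rw [Finset.mul_sum]
  refine Finset.sum_le_sum (fun x hx => ?_)
  rw [abs_mul, mul_comm]
  exact mul_le_mul_of_nonneg_right (h x hx) (abs_nonneg _)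

theorem tv_nonneg (μ : M →₀ ℝ) : 0 ≤ tv μ := Finset.sum_nonneg (fun _ _ => abs_nonneg _)

theorem tv_bound (o : M) (μ : M →₀ ℝ) (ho : μ o = 0) (s : ℝ) (hs : 0 < s)
    (sep : ∀ x y : M, x ≠ y → s ≤ dist x y) (B : ℝ) (hB : ∀ f, L1 o f → |pr μ f| ≤ B) :
    tv μ ≤ 2 * B / s := by
  set f : M → ℝ := fun x => if x = o then 0 else (s / 2) * SignType.sign (μ x) with hf
  have hle : ∀ x, |f x| ≤ s / 2 := by
    intro x
    simp only [hf]
    split_ifs with h
    · simp only [abs_zero]
      linarith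
    · rw [abs_mul, abs_of_pos (by linarith : (0 : ℝ) < s / 2)]
      have : |((SignType.sign (μ x) : SignType) : ℝ)| ≤ 1 := by
        rcases lt_trichotomy (μ x) 0 with h1 | h1 | h1
        · rw [sign_neg h1]; simp
        · rw [h1]; simp
        · rw [sign_pos h1]; simp
      nlinarith
  have hL : L1 o f := by
    constructor
    · simp [hf]
    · intro x y
      by_cases hxy : x = y
      · rw [hxy]
        simp
      · have h1 := hle x
        have h2 := hle y
        have h3 := sep x y hxy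
        rw [abs_le] at h1 h2 ⊢
        constructor <;> linarith
  have h1 := hB f hL
  have h2 : pr μ f = (s / 2) * tv μ := by
    unfold pr tv
    rw [Finset.mul_sum]
    refine Finset.sum_congr rfl (fun x hx => ?_)
    have hx0 : μ x ≠ 0 := Finsupp.mem_support_iff.1 hx
    have hxo : x ≠ o := by
      rintro rfl
      exact hx0 ho
    simp only [hf, if_neg hxo]
    rcases lt_or_gt_of_ne hx0 with h | h
    · rw [sign_neg h, abs_of_neg h]
      simp
      ring
    · rw [sign_pos h, abs_of_pos h]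
      simp
      ring
  rw [h2, abs_of_nonneg (mul_nonneg (by linarith) (tv_nonneg μ))] at h1
  rw [le_div_iff₀ hs]
  linarith

/-- soft threshold -/
noncomputable def th (η t : ℝ) : ℝ := t - max (-η) (min η t)

theorem th_lip (η a b : ℝ) : |th η a - th η b| ≤ |a - b| := by
  have key : ∀ a b : ℝ, a ≤ b → 0 ≤ th η b - th η a ∧ th η b - th η a ≤ b - a := by
    intro a b hab
    unfold th
    simp only [max_def, min_def]
    constructor <;> split_ifs <;> linarith
  rcases le_total a b with h | h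
  · obtain ⟨h1, h2⟩ := key a b h
    rw [abs_sub_comm, abs_of_nonneg h1, abs_sub_comm a b, abs_of_nonneg (by linarith)]
    exact h2
  · obtain ⟨h1, h2⟩ := key b a h
    rw [abs_of_nonneg h1, abs_of_nonneg (by linarith)]
    exact h2

theorem th_zero (η t : ℝ) (h : |t| ≤ η) : th η t = 0 := by
  rw [abs_le] at h
  unfold th
  rw [min_eq_right h.2, max_eq_right h.1, sub_self]

theorem th_close (η t : ℝ) (hη : 0 ≤ η) : |th η t - t| ≤ η := by
  unfold th
  have h1 : max (-η) (min η t) ≤ η := max_le (by linarith) (min_le_left _ _)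
  have h2 : -η ≤ max (-η) (min η t) := le_max_left _ _
  rw [abs_le]
  constructor <;> linarith

theorem stepA (o : M) (μ : ℕ → M →₀ ℝ) (T : ℝ) (hT : ∀ j, tv (μ j) ≤ T) (c : ℝ) (hc0 : 0 < c)
    (hc : ∀ f, L1 o f → ∀ᶠ j in atTop, |pr (μ j) f| < c) (f : ℕ → M → ℝ)
    (hf : ∀ j, L1 o (f j)) (hf1 : ∀ j, 1 ≤ pr (μ j) (f j)) :
    ∃ (j : ℕ → ℕ) (g : ℕ → M → ℝ), StrictMono j ∧ (∀ n x y, |g n x - g n y| ≤ 2 * dist x y) ∧
      (∀ n, g n o = 0) ∧ (∀ m n, m < n → ∀ x ∈ (μ (j m)).support, g n x = 0) ∧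
      ∀ n, 1 - 2 * c ≤ pr (μ (j n)) (g n) := by
  have hT0 : 0 ≤ T := (tv_nonneg (μ 0)).trans (hT 0)
  -- the limit function
  set V : Ultrafilter ℕ := hyperfilter ℕ with hV
  have hVtop : (V : Filter ℕ) ≤ atTop := by
    rw [← Nat.cofinite_eq_atTop]
    exact hyperfilter_le_cofinite
  have hcomp : IsCompact (Set.pi Set.univ (fun x : M => Set.Icc (-dist x o) (dist x o))) :=
    isCompact_univ_pi (fun x => isCompact_Icc)
  have hmem : ∀ j, f j ∈ Set.pi Set.univ (fun x : M => Set.Icc (-dist x o) (dist x o)) := by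
    intro j x _
    have h1 := (hf j).2 x o
    rw [(hf j).1, sub_zero, abs_le] at h1
    exact h1
  obtain ⟨φ, _, hφ⟩ := hcomp.ultrafilter_le_nhds' (V.map f)
    (Filter.Eventually.of_forall (f := (V : Filter ℕ)) hmem)
  have hlim : ∀ x, Tendsto (fun j => f j x) V (𝓝 (φ x)) := by
    have h1 : Tendsto f (V : Filter ℕ) (𝓝 φ) := hφ
    rw [tendsto_pi_nhds] at h1
    exact h1
  have hφL : L1 o φ := by
    constructor
    · have h1 : Tendsto (fun j => f j o) V (𝓝 0) := by
        simp only [(hf _).1]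
        exact tendsto_const_nhds
      exact tendsto_nhds_unique (hlim o) h1
    · intro x y
      have h1 : Tendsto (fun j => |f j x - f j y|) V (𝓝 |φ x - φ y|) := ((hlim x).sub (hlim y)).abs
      exact le_of_tendsto' h1 (fun j => (hf j).2 x y)
  set η : ℝ := c / (T + 1) with hη
  have hη0 : 0 < η := by positivity
  have hηT : η * T ≤ c := by
    rw [hη, div_mul_eq_mul_div, div_le_iff₀ (by linarith)]
    nlinarith
  obtain ⟨e, he1, he2⟩ := exists_seq_of_forall_finset_exists
    (fun e : ℕ × (M → ℝ) => (∀ x y, |e.2 x - e.2 y| ≤ 2 * dist x y) ∧ e.2 o = 0 ∧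
      1 - 2 * c ≤ pr (μ e.1) e.2)
    (fun e e' : ℕ × (M → ℝ) => e.1 < e'.1 ∧ ∀ x ∈ (μ e.1).support, e'.2 x = 0) (by
      intro S _
      have h1 : ∀ᶠ j in (V : Filter ℕ), ∀ e ∈ S, e.1 < j := by
        rw [Finset.eventually_all]
        intro e _
        exact hVtop (eventually_gt_atTop e.1)
      have h2 : ∀ᶠ j in (V : Filter ℕ), ∀ e ∈ S, ∀ x ∈ (μ e.1).support, |f j x - φ x| ≤ η := by
        rw [Finset.eventually_all]
        intro e _
        rw [Finset.eventually_all]
        intro x _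
        have h3 : Tendsto (fun j => |f j x - φ x|) V (𝓝 0) := by
          have := ((hlim x).sub_const (φ x)).abs
          rwa [sub_self, abs_zero] at this
        exact (h3.eventually_lt_const hη0).mono (fun j hj => hj.le)
      have h3 : ∀ᶠ j in (V : Filter ℕ), |pr (μ j) φ| < c := hVtop (hc φ hφL)
      obtain ⟨j, hj1, hj2, hj3⟩ := (h1.and (h2.and h3)).exists
      refine ⟨(j, fun x => th η (f j x - φ x)), ⟨?_, ?_, ?_⟩, fun e he => ⟨hj1 e he, ?_⟩⟩
      · intro x y
        refine (th_lip _ _ _).trans ?_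
        have e1 : f j x - φ x - (f j y - φ y) = (f j x - f j y) - (φ x - φ y) := by ring
        rw [e1]
        have h4 := (hf j).2 x y
        have h5 := hφL.2 x y
        have h6 := abs_sub (f j x - f j y) (φ x - φ y)
        linarith
      · simp only [(hf j).1, hφL.1, sub_self]
        exact th_zero _ _ (by simpa using hη0.le)
      · simp only
        have h4 : pr (μ j) (fun x => th η (f j x - φ x)) =
            pr (μ j) (f j) - pr (μ j) φ + pr (μ j) (fun x => th η (f j x - φ x) - (f j x - φ x)) := by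
          rw [pr_sub (μ j) (fun x => th η (f j x - φ x)) (fun x => f j x - φ x), pr_sub]
          ring
        have h5 := pr_le (μ j) (fun x => th η (f j x - φ x) - (f j x - φ x)) η
          (fun x _ => th_close η _ hη0.le)
        have h6 : η * tv (μ j) ≤ c := (mul_le_mul_of_nonneg_left (hT j) hη0.le).trans hηT
        have h7 := hf1 j
        rw [abs_lt] at hj3
        rw [abs_le] at h5
        rw [h4]
        linarith [h5.1, hj3.2]
      · intro x hx
        exact th_zero _ _ (hj2 e he x hx))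
  refine ⟨fun n => (e n).1, fun n => (e n).2, ?_, fun n => (he1 n).1, fun n => (he1 n).2.1, ?_,
    fun n => (he1 n).2.2⟩
  · exact fun m n hmn => (he2 m n hmn).1
  · exact fun m n hmn => (he2 m n hmn).2

/-- the halo of the `i`-th support -/
def halo (o : M) (ν : ℕ → M →₀ ℝ) (i : ℕ) : Set M :=
  {z | ∃ y ∈ (ν i).support, ∀ p, (p = o ∨ ∃ l < i, p ∈ (ν l).support) → 3 * dist z y < dist y p}

/-- the mass of the `k`-th measure in the `i`-th halo -/
noncomputable def mass (o : M) (ν : ℕ → M →₀ ℝ) (i k : ℕ) : ℝ :=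
  ∑ z ∈ (ν k).support.filter (fun z => z ∈ halo o ν i), |ν k z|

theorem overlap (o : M) (ν : ℕ → M →₀ ℝ) (D s : ℝ) (hs : 0 < s)
    (sep : ∀ x y : M, x ≠ y → s ≤ dist x y) (hD : ∀ n, ∀ x ∈ (ν n).support, dist x o ≤ D)
    (z : M) (I : Finset ℕ) (hI : ∀ i ∈ I, z ∈ halo o ν i) : I.card ≤ ⌊D / s⌋₊ + 1 := by
  have : Nonempty M := ⟨o⟩
  choose! y hy1 hy2 using hI
  have hinj : Set.InjOn (fun i => ⌊dist z (y i) / s⌋₊) (I : Set ℕ) := by
    have key : ∀ i ∈ I, ∀ k ∈ I, i < k → ⌊dist z (y k) / s⌋₊ < ⌊dist z (y i) / s⌋₊ := by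
      intro i hi k hk hik
      have h1 : 3 * dist z (y k) < dist (y k) (y i) := hy2 k hk (y i) (Or.inr ⟨i, hik, hy1 i hi⟩)
      have h2 : dist (y k) (y i) ≤ dist z (y k) + dist z (y i) := by
        rw [dist_comm z (y k)]
        exact dist_triangle _ _ _
      have h3 : dist z (y k) + s ≤ dist z (y i) := by
        rcases eq_or_ne z (y k) with h | h
        · have h4 : dist z (y k) = 0 := by rw [← h, dist_self]
          have h5 : z ≠ y i := by
            intro h5
            have : dist z (y i) = 0 := by rw [← h5, dist_self]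
            rw [h4] at h1
            linarith
          have := sep z (y i) h5
          linarith
        · have := sep z (y k) h
          linarith
      have h4 : dist z (y k) / s + 1 ≤ dist z (y i) / s := by
        rw [div_add_one hs.ne', div_le_div_iff_of_pos_right hs]
        exact h3
      have h5 : ⌊dist z (y k) / s + 1⌋₊ = ⌊dist z (y k) / s⌋₊ + 1 :=
        Nat.floor_add_one (by positivity)
      have h6 := Nat.floor_le_floor h4
      omega
    intro i hi k hk hik
    rcases lt_trichotomy i k with h | h | h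
    · have := key i hi k hk h
      simp only at hik
      omega
    · exact h
    · have := key k hk i hi h
      simp only at hik
      omega
  have hmaps : Set.MapsTo (fun i => ⌊dist z (y i) / s⌋₊) (I : Set ℕ)
      (Finset.range (⌊D / s⌋₊ + 1) : Set ℕ) := by
    intro i hi
    rw [Finset.coe_range, Set.mem_Iio, Nat.lt_add_one_iff]
    apply Nat.floor_le_floor
    rw [div_le_div_iff_of_pos_right hs]
    have h1 := hy2 i hi o (Or.inl rfl)
    have h2 := hD i (y i) (hy1 i hi)
    have h3 : 0 ≤ dist z (y i) := dist_nonneg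
    linarith
  have h := Finset.card_le_card_of_injOn _ hmaps hinj
  rwa [Finset.card_range] at h

theorem mass_sum (o : M) (ν : ℕ → M →₀ ℝ) (D s T : ℝ) (hs : 0 < s)
    (sep : ∀ x y : M, x ≠ y → s ≤ dist x y) (hD : ∀ n, ∀ x ∈ (ν n).support, dist x o ≤ D)
    (hT : ∀ n, tv (ν n) ≤ T) (I : Finset ℕ) (k : ℕ) :
    ∑ i ∈ I, mass o ν i k ≤ (⌊D / s⌋₊ + 1 : ℕ) * T := by
  have h1 : ∑ i ∈ I, mass o ν i k =
      ∑ z ∈ (ν k).support, (I.filter (fun i => z ∈ halo o ν i)).card * |ν k z| := by
    unfold mass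
    simp_rw [Finset.sum_filter]
    rw [Finset.sum_comm]
    refine Finset.sum_congr rfl (fun z _ => ?_)
    rw [← Finset.sum_filter, Finset.sum_const, nsmul_eq_mul]
  rw [h1]
  calc ∑ z ∈ (ν k).support, (I.filter (fun i => z ∈ halo o ν i)).card * |ν k z|
      ≤ ∑ z ∈ (ν k).support, ((⌊D / s⌋₊ + 1 : ℕ) : ℝ) * |ν k z| := by
        refine Finset.sum_le_sum (fun z _ => ?_)
        apply mul_le_mul_of_nonneg_right _ (abs_nonneg _)
        exact_mod_cast overlap o ν D s hs sep hD z _ (fun i hi => (Finset.mem_filter.1 hi).2)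
    _ = ((⌊D / s⌋₊ + 1 : ℕ) : ℝ) * tv (ν k) := by
        rw [tv, Finset.mul_sum]
    _ ≤ _ := mul_le_mul_of_nonneg_left (hT k) (by positivity)

theorem stepB (o : M) (ν : ℕ → M →₀ ℝ) (D s T : ℝ) (hs : 0 < s)
    (sep : ∀ x y : M, x ≠ y → s ≤ dist x y) (hD : ∀ n, ∀ x ∈ (ν n).support, dist x o ≤ D)
    (hT : ∀ n, tv (ν n) ≤ T) (η : ℝ) (hη : 0 < η) :
    ∃ i : ℕ → ℕ, StrictMono i ∧ ∀ n, ∑ l ∈ Finset.range n, mass o ν (i l) (i n) ≤ η := by
  set V : Ultrafilter ℕ := hyperfilter ℕ with hV
  have hVtop : (V : Filter ℕ) ≤ atTop := by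
    rw [← Nat.cofinite_eq_atTop]
    exact hyperfilter_le_cofinite
  have hfin : ∀ δ : ℝ, 0 < δ → {i | ¬ ∀ᶠ k in (V : Filter ℕ), mass o ν i k < δ}.Finite := by
    intro δ hδ
    by_contra hinf
    have hinf : Set.Infinite {i | ¬ ∀ᶠ k in (V : Filter ℕ), mass o ν i k < δ} := hinf
    obtain ⟨Q, hQ⟩ := exists_nat_gt ((((⌊D / s⌋₊ + 1 : ℕ) : ℝ) * T) / δ)
    obtain ⟨I, hI1, hI2⟩ := hinf.exists_subset_card_eq Q
    have h1 : ∀ᶠ k in (V : Filter ℕ), ∀ i ∈ I, δ ≤ mass o ν i k := by
      rw [Finset.eventually_all]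
      intro i hi
      have h2 := hI1 hi
      simp only [Set.mem_ofPred_eq] at h2
      rw [← Ultrafilter.eventually_not] at h2
      filter_upwards [h2] with k hk
      exact not_lt.1 hk
    obtain ⟨k, hk⟩ := h1.exists
    have h2 := mass_sum o ν D s T hs sep hD hT I k
    have h3 : (Q : ℝ) * δ ≤ ∑ i ∈ I, mass o ν i k := by
      have := Finset.card_nsmul_le_sum I (fun i => mass o ν i k) δ hk
      rwa [hI2, nsmul_eq_mul] at this
    rw [div_lt_iff₀ hδ] at hQ
    linarith
  obtain ⟨e, he1, he2⟩ := exists_seq_of_forall_finset_exists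
    (fun e : ℕ × ℕ => ∀ᶠ k in (V : Filter ℕ), mass o ν e.2 k < η / 2 ^ (e.1 + 1))
    (fun e e' : ℕ × ℕ => e.1 < e'.1 ∧ e.2 < e'.2 ∧ mass o ν e.2 e'.2 < η / 2 ^ (e.1 + 1)) (by
      intro S hS
      set b : ℕ := S.sup (fun e => e.1) + 1 with hb
      have h1 : ∀ᶠ k in (V : Filter ℕ), ∀ e ∈ S, mass o ν e.2 k < η / 2 ^ (e.1 + 1) := by
        rw [Finset.eventually_all]
        exact hS
      have h2 : ∀ᶠ k in (V : Filter ℕ), ∀ e ∈ S, e.2 < k := by
        rw [Finset.eventually_all]
        intro e _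
        exact hVtop (eventually_gt_atTop e.2)
      have h3 : ∀ᶠ k in (V : Filter ℕ), k ∉ {i | ¬ ∀ᶠ k in (V : Filter ℕ),
          mass o ν i k < η / 2 ^ (b + 1)} := by
        have := (hfin (η / 2 ^ (b + 1)) (by positivity)).eventually_cofinite_notMem
        exact hyperfilter_le_cofinite this
      obtain ⟨k, hk1, hk2, hk3⟩ := (h1.and (h2.and h3)).exists
      simp only [Set.mem_ofPred_eq, not_not] at hk3
      refine ⟨(b, k), hk3, fun e he => ⟨?_, hk2 e he, hk1 e he⟩⟩
      have : e.1 ≤ S.sup (fun e => e.1) := Finset.le_sup (f := fun e : ℕ × ℕ => e.1) he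
      simp only [hb]
      omega)
  refine ⟨fun n => (e n).2, fun m n hmn => (he2 m n hmn).2.1, fun n => ?_⟩
  have hge : ∀ l, l ≤ (e l).1 := by
    intro l
    induction l with
    | zero => exact Nat.zero_le _
    | succ l ih =>
      have := (he2 l (l + 1) (Nat.lt_succ_self l)).1
      omega
  calc ∑ l ∈ Finset.range n, mass o ν (e l).2 (e n).2
      ≤ ∑ l ∈ Finset.range n, η / 2 / 2 ^ l := by
        refine Finset.sum_le_sum (fun l hl => ?_)
        refine (he2 l n (Finset.mem_range.1 hl)).2.2.le.trans ?_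
        rw [div_div, mul_comm, ← pow_succ]
        apply div_le_div_of_nonneg_left hη.le (by positivity)
        exact pow_le_pow_right₀ (by norm_num) (by have := hge l; omega)
    _ ≤ η := by
        have h1 : ∀ n : ℕ, ∑ l ∈ Finset.range n, η / 2 / 2 ^ l = η - η / 2 ^ n := by
          intro n
          induction n with
          | zero => simp
          | succ n ih =>
            rw [Finset.sum_range_succ, ih, pow_succ]
            field_simp
            ring
        rw [h1]
        have : 0 < η / 2 ^ n := by positivity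
        linarith

end Pool.Agent.J4H86.LF
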