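import Mathlib
import Pool.Agent.J4H86.LF.Sel

set_option autoImplicit false
set_option linter.unusedSectionVars false

open Filter Topology
open scoped Classical

namespace Pool.Agent.J4H86.LF

universe u
variable {M : Type u} [MetricSpace M]

theorem stepC (o : M) (ν : ℕ → M →₀ ℝ) (g : ℕ → M → ℝ) (D η a : ℝ)
    (hD0 : 0 ≤ D) (hD : ∀ n, ∀ x ∈ (ν n).support, dist x o ≤ D)
    (hg1 : ∀ n x y, |g n x - g n y| ≤ 2 * dist x y) (hg2 : ∀ n, g n o = 0)
    (hg3 : ∀ m n, m < n → ∀ x ∈ (ν m).support, g n x = 0) (hg4 : ∀ n, a ≤ pr (ν n) (g n))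
    (i : ℕ → ℕ) (hi : StrictMono i)
    (him : ∀ n, ∑ l ∈ Finset.range n, mass o ν (i l) (i n) ≤ η) :
    ∃ f, L1 o f ∧ ∀ n, a / 8 - 5 / 4 * D * η ≤ pr (ν (i n)) f := by
  have hN : Nonempty M := ⟨o⟩
  set F : ℕ → Set M := fun n => {y | y ∈ (ν (i n)).support ∧ ∀ l < n, y ∉ halo o ν (i l)} with hF
  -- the basic inequality
  have key0 : ∀ m n, m < n → ∀ y ∈ F m, ∀ z ∈ F n, |g (i n) z - g (i m) y| ≤ 8 * dist z y := by
    intro m n hmn y hy z hz
    have h1 : |g (i n) z| ≤ 2 * dist z y := by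
      have h2 := hg1 (i n) z y
      rwa [hg3 (i m) (i n) (hi hmn) y hy.1, sub_zero] at h2
    have h2 : |g (i m) y| ≤ 6 * dist z y := by
      have h3 := hz.2 m hmn
      simp only [halo, Set.mem_ofPred_eq, not_exists, not_and, not_forall, not_lt] at h3
      obtain ⟨p, hp, hp'⟩ := h3 y hy.1
      have h4 : g (i m) p = 0 := by
        rcases hp with rfl | ⟨l, hl, hl'⟩
        · exact hg2 _
        · exact hg3 l (i m) hl p hl'
      have h5 := hg1 (i m) y p
      rw [h4, sub_zero] at h5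
      linarith
    rw [abs_le] at h1 h2 ⊢
    constructor <;> linarith
  have key : ∀ m n, ∀ y ∈ F m, ∀ z ∈ F n, |g (i m) y - g (i n) z| ≤ 8 * dist y z := by
    intro m n y hy z hz
    rcases lt_trichotomy m n with h | h | h
    · have := key0 m n h y hy z hz
      rwa [abs_sub_comm, dist_comm]
    · subst h
      have := hg1 (i m) y z
      have h0 : 0 ≤ dist y z := dist_nonneg
      linarith
    · exact key0 n m h z hz y hy
  -- the function on the union
  set Y : Set M := {y | ∃ n, y ∈ F n} with hY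
  have hch : ∀ y : M, ∃ n, y ∈ Y → y ∈ F n := by
    intro y
    by_cases hy : y ∈ Y
    · obtain ⟨n, hn⟩ := hy
      exact ⟨n, fun _ => hn⟩
    · exact ⟨0, fun h => absurd h hy⟩
  choose N hNy using hch
  set f0 : M → ℝ := fun y => if y ∈ Y then g (i (N y)) y / 8 else 0 with hf0
  have hval : ∀ n, ∀ y ∈ F n, f0 y = g (i n) y / 8 := by
    intro n y hy
    have hyY : y ∈ Y := ⟨n, hy⟩
    have h1 := key (N y) n y (hNy y hyY) y hy
    rw [dist_self, mul_zero] at h1
    have h2 : g (i (N y)) y = g (i n) y := by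
      rw [← sub_eq_zero]
      exact abs_eq_zero.1 (le_antisymm h1 (abs_nonneg _))
    simp only [hf0, if_pos hyY, h2]
  have ho8 : ∀ y ∈ Y, |f0 y| ≤ dist y o := by
    intro y hy
    rw [hval _ y (hNy y hy)]
    have := hg1 (i (N y)) y o
    rw [hg2, sub_zero] at this
    rw [abs_div, abs_of_pos (by norm_num : (0 : ℝ) < 8)]
    have h0 : 0 ≤ dist y o := dist_nonneg
    linarith
  have ho : f0 o = 0 := by
    by_cases h : o ∈ Y
    · have := ho8 o h
      rw [dist_self] at this
      exact abs_eq_zero.1 (le_antisymm this (abs_nonneg _))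
    · simp only [hf0, if_neg h]
  have hlip : LipschitzOnWith 1 f0 (insert o Y) := by
    apply LipschitzOnWith.of_dist_le_mul
    intro x hx y hy
    rw [Real.dist_eq, NNReal.coe_one, one_mul]
    rcases hx with rfl | hx
    · rcases hy with rfl | hy
      · simp
      · rw [ho, zero_sub, abs_neg, dist_comm]
        exact ho8 y hy
    · rcases hy with rfl | hy
      · rw [ho, sub_zero]
        exact ho8 x hx
      · rw [hval _ x (hNy x hx), hval _ y (hNy y hy), ← sub_div, abs_div,
          abs_of_pos (by norm_num : (0 : ℝ) < 8)]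
        have := key _ _ x (hNy x hx) y (hNy y hy)
        linarith
  obtain ⟨f, hf1, hf2⟩ := hlip.extend_real
  have hfo : f o = 0 := by
    rw [← hf2 (Set.mem_insert _ _), ho]
  have hL : L1 o f := by
    refine ⟨hfo, fun x y => ?_⟩
    have := hf1.dist_le_mul x y
    rwa [Real.dist_eq, NNReal.coe_one, one_mul] at this
  refine ⟨f, hL, fun n => ?_⟩
  -- evaluation
  have h1 : pr (ν (i n)) f = pr (ν (i n)) (fun y => 1 / 8 * g (i n) y) +
      pr (ν (i n)) (fun y => f y - 1 / 8 * g (i n) y) := by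
    rw [pr_sub]
    ring
  have h2 : |pr (ν (i n)) (fun y => f y - 1 / 8 * g (i n) y)| ≤ 5 / 4 * D * η := by
    unfold pr
    refine (Finset.abs_sum_le_sum_abs _ _).trans ?_
    have hbd : ∀ z ∈ (ν (i n)).support, |ν (i n) z * (f z - 1 / 8 * g (i n) z)| ≤
        ∑ l ∈ Finset.range n, (if z ∈ halo o ν (i l) then 5 / 4 * D * |ν (i n) z| else 0) := by
      intro z hz
      have hnn : ∀ l ∈ Finset.range n,
          0 ≤ (if z ∈ halo o ν (i l) then 5 / 4 * D * |ν (i n) z| else 0) := by
        intro l _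
        split_ifs
        · positivity
        · exact le_rfl
      by_cases hzF : z ∈ F n
      · have h3 : f z = f0 z := (hf2 (Set.mem_insert_of_mem _ ⟨n, hzF⟩)).symm
        rw [h3, hval n z hzF]
        have e : g (i n) z / 8 - 1 / 8 * g (i n) z = 0 := by ring
        rw [e, mul_zero, abs_zero]
        exact Finset.sum_nonneg hnn
      · simp only [hF, Set.mem_ofPred_eq, not_and, not_forall, not_not] at hzF
        obtain ⟨l, hl, hl'⟩ := hzF hz
        have h3 : |f z| ≤ D := by
          have := hL.2 z o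
          rw [hfo, sub_zero] at this
          exact this.trans (hD _ z hz)
        have h4 : |g (i n) z| ≤ 2 * D := by
          have h5 := hg1 (i n) z o
          rw [hg2, sub_zero] at h5
          have := hD _ z hz
          linarith
        have h5 : |f z - 1 / 8 * g (i n) z| ≤ 5 / 4 * D := by
          rw [abs_le] at h3 h4 ⊢
          constructor <;> linarith
        have h6 : |ν (i n) z * (f z - 1 / 8 * g (i n) z)| ≤
            (if z ∈ halo o ν (i l) then 5 / 4 * D * |ν (i n) z| else 0) := by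
          rw [if_pos hl', abs_mul, mul_comm]
          exact mul_le_mul_of_nonneg_right h5 (abs_nonneg _)
        exact h6.trans (Finset.single_le_sum hnn (Finset.mem_range.2 hl))
    refine (Finset.sum_le_sum hbd).trans ?_
    rw [Finset.sum_comm]
    have h3 : ∀ l, ∑ z ∈ (ν (i n)).support,
        (if z ∈ halo o ν (i l) then 5 / 4 * D * |ν (i n) z| else 0) =
        5 / 4 * D * mass o ν (i l) (i n) := by
      intro l
      unfold mass
      rw [← Finset.sum_filter, Finset.mul_sum]
    rw [Finset.sum_congr rfl (fun l _ => h3 l), ← Finset.mul_sum]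
    exact mul_le_mul_of_nonneg_left (him n) (by positivity)
  rw [h1, pr_mul]
  rw [abs_le] at h2
  have := hg4 (i n)
  linarith [h2.1]

theorem pr_erase (o : M) (μ : M →₀ ℝ) (f : M → ℝ) (hf : f o = 0) : pr (μ.erase o) f = pr μ f := by
  unfold pr
  rw [Finsupp.support_erase]
  by_cases ho : o ∈ μ.support
  · rw [← Finset.add_sum_erase _ _ ho, hf, mul_zero, zero_add]
    refine Finset.sum_congr rfl (fun x hx => ?_)
    rw [Finsupp.erase_ne (Finset.ne_of_mem_erase hx)]
  · rw [Finset.erase_eq_of_notMem ho]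
    refine Finset.sum_congr rfl (fun x hx => ?_)
    rw [Finsupp.erase_ne]
    rintro rfl
    exact ho hx

theorem bounded_case (o : M) (s : ℝ) (hs : 0 < s) (sep : ∀ x y : M, x ≠ y → s ≤ dist x y) (D : ℝ)
    (hD0 : 0 ≤ D) (μ : ℕ → M →₀ ℝ) (hD : ∀ n, ∀ x ∈ (μ n).support, dist x o ≤ D) (B : ℝ)
    (hB : ∀ j f, L1 o f → |pr (μ j) f| ≤ B) (hf : ∀ j, ∃ f, L1 o f ∧ 1 ≤ pr (μ j) f) :
    ∃ f, L1 o f ∧ ∃ᶠ j in atTop, 1 / 12 ≤ |pr (μ j) f| := by
  by_contra hcon
  push Not at hcon
  choose f hf1 hf2 using hf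
  set μ' : ℕ → M →₀ ℝ := fun j => (μ j).erase o with hμ'
  have he : ∀ j h, L1 o h → pr (μ' j) h = pr (μ j) h := fun j h hh => pr_erase o _ h hh.1
  have hT : ∀ j, tv (μ' j) ≤ 2 * B / s := by
    intro j
    apply tv_bound o (μ' j) (by simp [hμ']) s hs sep B
    intro h hh
    rw [he j h hh]
    exact hB j h hh
  have hD' : ∀ n, ∀ x ∈ (μ' n).support, dist x o ≤ D := by
    intro n x hx
    simp only [hμ', Finsupp.support_erase] at hx
    exact hD n x (Finset.mem_of_mem_erase hx)
  obtain ⟨j, g, hj, hg1, hg2, hg3, hg4⟩ := stepA o μ' (2 * B / s) hT (1 / 12) (by norm_num)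
    (fun h hh => by
      have h1 := hcon h hh
      filter_upwards [h1] with j hj
      rwa [he j h hh]) f hf1 (fun j => by rw [he j _ (hf1 j)]; exact hf2 j)
  obtain ⟨i, hi, him⟩ := stepB o (fun n => μ' (j n)) D s (2 * B / s) hs sep (fun n => hD' (j n))
    (fun n => hT (j n)) (1 / (60 * (D + 1))) (by positivity)
  obtain ⟨F, hF1, hF2⟩ := stepC o (fun n => μ' (j n)) g D (1 / (60 * (D + 1))) (1 - 2 * (1 / 12))
    hD0 (fun n => hD' (j n)) hg1 hg2 hg3 hg4 i hi him
  have h1 := hcon F hF1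
  rw [Filter.eventually_atTop] at h1
  obtain ⟨n0, hn0⟩ := h1
  have h2 := hn0 (j (i n0)) ((hi.id_le n0).trans (hj.id_le (i n0)))
  have h3 : _ ≤ pr (μ' (j (i n0))) F := hF2 n0
  rw [he _ F hF1] at h3
  have h4 : 5 / 4 * D * (1 / (60 * (D + 1))) ≤ 1 / 48 := by
    rw [mul_one_div, div_le_div_iff₀ (by positivity) (by norm_num)]
    linarith
  rw [abs_lt] at h2
  linarith [h2.2]

end Pool.Agent.J4H86.LF
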