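import Mathlib
import Pool.Agent.J4H86.LF.Bounded

set_option autoImplicit false
set_option linter.unusedSectionVars false

open Filter Topology
open scoped Classical

namespace Pool.Agent.J4H86.LF

universe u
variable {M : Type u} [MetricSpace M]

/-- radial cut-off -/
noncomputable def cut (o : M) (R : ℝ) (x : M) : ℝ := max 0 (min 1 (2 - dist x o / R))

theorem cut_nonneg (o : M) (R : ℝ) (x : M) : 0 ≤ cut o R x := le_max_left _ _

theorem cut_le_one (o : M) (R : ℝ) (x : M) : cut o R x ≤ 1 :=
  max_le zero_le_one (min_le_left _ _)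

theorem cut_one (o : M) (R : ℝ) (hR : 0 < R) (x : M) (hx : dist x o ≤ R) : cut o R x = 1 := by
  unfold cut
  have h : dist x o / R ≤ 1 := by rwa [div_le_one hR]
  rw [min_eq_left (by linarith), max_eq_right (by norm_num)]

theorem cut_zero (o : M) (R : ℝ) (hR : 0 < R) (x : M) (hx : 2 * R ≤ dist x o) :
    cut o R x = 0 := by
  unfold cut
  have h : 2 ≤ dist x o / R := by rwa [le_div_iff₀ hR]
  rw [max_eq_left]
  exact (min_le_right _ _).trans (by linarith)

theorem cut_lip (o : M) (R : ℝ) (hR : 0 < R) (x y : M) :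
    |cut o R x - cut o R y| ≤ dist x y / R := by
  have h1 : |dist x o - dist y o| ≤ dist x y := abs_dist_sub_le x y o
  have h2 : |dist x o / R - dist y o / R| ≤ dist x y / R := by
    rw [← sub_div, abs_div, abs_of_pos hR]
    exact div_le_div_of_nonneg_right h1 hR.le
  refine le_trans ?_ h2
  unfold cut
  have h3 : |max 0 (min 1 (2 - dist x o / R)) - max 0 (min 1 (2 - dist y o / R))| ≤
      |min 1 (2 - dist x o / R) - min 1 (2 - dist y o / R)| := by
    have := abs_max_sub_max_le_max (0 : ℝ) (min 1 (2 - dist x o / R)) 0 (min 1 (2 - dist y o / R))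
    simpa using this
  have h4 : |min 1 (2 - dist x o / R) - min 1 (2 - dist y o / R)| ≤
      |(2 - dist x o / R) - (2 - dist y o / R)| := by
    have := abs_min_sub_min_le_max (1 : ℝ) (2 - dist x o / R) 1 (2 - dist y o / R)
    simpa using this
  refine (h3.trans h4).trans (le_of_eq ?_)
  rw [abs_sub_comm (dist x o / R)]
  congr 1
  ring

theorem cut_mul (o : M) (R : ℝ) (hR : 0 < R) (K : ℝ) (hK : 0 ≤ K) (F : M → ℝ) (hF0 : F o = 0)
    (hF : ∀ x y, |F x - F y| ≤ K * dist x y) (x y : M) :
    |cut o R x * F x - cut o R y * F y| ≤ 3 * K * dist x y := by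
  have key : ∀ x y : M, dist y o ≤ dist x o →
      |cut o R x * F x - cut o R y * F y| ≤ 3 * K * dist x y := by
    intro x y hxy
    have hd : 0 ≤ dist x y := dist_nonneg
    rcases le_or_gt (dist y o) (2 * R) with h | h
    · have e : cut o R x * F x - cut o R y * F y =
          cut o R x * (F x - F y) + (cut o R x - cut o R y) * F y := by ring
      rw [e]
      refine (abs_add_le _ _).trans ?_
      rw [abs_mul, abs_mul, abs_of_nonneg (cut_nonneg o R x)]
      have h1 := cut_le_one o R x
      have h2 := hF x y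
      have h3 := cut_lip o R hR x y
      have h4 : |F y| ≤ K * (2 * R) := by
        have := hF y o
        rw [hF0, sub_zero] at this
        exact this.trans (mul_le_mul_of_nonneg_left h hK)
      have h5 : cut o R x * |F x - F y| ≤ 1 * (K * dist x y) :=
        mul_le_mul h1 h2 (abs_nonneg _) zero_le_one
      have h6 : |cut o R x - cut o R y| * |F y| ≤ (dist x y / R) * (K * (2 * R)) :=
        mul_le_mul h3 h4 (abs_nonneg _) (by positivity)
      have h7 : (dist x y / R) * (K * (2 * R)) = 2 * (K * dist x y) := by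
        field_simp
      rw [h7] at h6
      linarith
    · rw [cut_zero o R hR x (h.le.trans hxy), cut_zero o R hR y h.le]
      simp only [zero_mul, sub_self, abs_zero]
      positivity
  rcases le_total (dist y o) (dist x o) with h | h
  · exact key x y h
  · rw [abs_sub_comm, dist_comm x y]
    exact key y x h

theorem L1_cut (o : M) (R : ℝ) (hR : 0 < R) (K : ℝ) (hK : 0 < K) (F : M → ℝ) (hF0 : F o = 0)
    (hF : ∀ x y, |F x - F y| ≤ K * dist x y) :
    L1 o (fun x => 1 / (3 * K) * (cut o R x * F x)) := by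
  constructor
  · simp only [hF0, mul_zero]
  · intro x y
    rw [← mul_sub, abs_mul, abs_of_pos (by positivity)]
    have := cut_mul o R hR K hK.le F hF0 hF x y
    rw [one_div, inv_mul_le_iff₀ (by positivity)]
    exact this

theorem L1_abs (o : M) (f : M → ℝ) (hf : L1 o f) (x : M) : |f x| ≤ dist x o := by
  have := hf.2 x o
  rwa [hf.1, sub_zero] at this

theorem L1_neg (o : M) (f : M → ℝ) (hf : L1 o f) : L1 o (fun x => - f x) := by
  refine ⟨by simp [hf.1], fun x y => ?_⟩
  have e : - f x - - f y = -(f x - f y) := by ring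
  rw [e, abs_neg]
  exact hf.2 x y

theorem pr_subset (μ : M →₀ ℝ) (S : Finset M) (hS : μ.support ⊆ S) (f : M → ℝ) :
    pr μ f = ∑ x ∈ S, μ x * f x := by
  unfold pr
  apply Finset.sum_subset hS
  intro x _ hx
  rw [Finsupp.notMem_support_iff.1 hx, zero_mul]

theorem caseA (o : M) (s : ℝ) (hs : 0 < s) (sep : ∀ x y : M, x ≠ y → s ≤ dist x y)
    (μ : ℕ → M →₀ ℝ) (B : ℝ) (hB : ∀ j f, L1 o f → |pr (μ j) f| ≤ B) (R : ℝ) (hR : 0 < R)
    (hA : ∃ᶠ j in atTop, ∃ f, L1 o f ∧ 1 / 50 ≤ pr (μ j) (fun x => cut o R x * f x)) :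
    ∃ f, L1 o f ∧ ∃ᶠ j in atTop, 1 / 1800 ≤ |pr (μ j) f| := by
  obtain ⟨φ, hφ, hφ2⟩ := extraction_of_frequently_atTop hA
  set μ' : ℕ → M →₀ ℝ := fun n => Finsupp.onFinset (μ (φ n)).support
    (fun x => 50 * cut o R x * μ (φ n) x) (by
      intro x hx
      rw [Finsupp.mem_support_iff]
      intro h
      apply hx
      rw [h, mul_zero]) with hμ'
  have hpr : ∀ n f, pr (μ' n) f = 50 * pr (μ (φ n)) (fun x => cut o R x * f x) := by
    intro n f
    rw [pr_subset (μ' n) (μ (φ n)).support (Finsupp.support_onFinset_subset)]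
    unfold pr
    rw [Finset.mul_sum]
    refine Finset.sum_congr rfl (fun x _ => ?_)
    simp only [hμ', Finsupp.onFinset_apply]
    ring
  have hLc : ∀ f, L1 o f → L1 o (fun x => 1 / (3 * 1) * (cut o R x * f x)) := fun f hf =>
    L1_cut o R hR 1 one_pos f hf.1 (fun x y => by rw [one_mul]; exact hf.2 x y)
  have hpr2 : ∀ n f, pr (μ' n) f =
      150 * pr (μ (φ n)) (fun x => 1 / (3 * 1) * (cut o R x * f x)) := by
    intro n f
    rw [hpr, pr_mul]
    ring
  obtain ⟨f, hf1, hf2⟩ := bounded_case o s hs sep (2 * R) (by linarith) μ' (by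
    intro n x hx
    by_contra hcon
    rw [Finsupp.mem_support_iff] at hx
    apply hx
    simp only [hμ', Finsupp.onFinset_apply]
    rw [cut_zero o R hR x (not_le.1 hcon).le]
    simp) (150 * B) (by
    intro j f hf
    rw [hpr2, abs_mul, abs_of_pos (by norm_num : (0 : ℝ) < 150)]
    exact mul_le_mul_of_nonneg_left (hB _ _ (hLc f hf)) (by norm_num)) (by
    intro j
    obtain ⟨f, hf, hf'⟩ := hφ2 j
    refine ⟨f, hf, ?_⟩
    rw [hpr]
    linarith)
  refine ⟨_, hLc f hf1, ?_⟩
  refine hφ.tendsto_atTop.frequently (hf2.mono (fun n hn => ?_))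
  rw [hpr2, abs_mul, abs_of_pos (by norm_num : (0 : ℝ) < 150)] at hn
  linarith

/-- data of the second case -/
structure Piece (o : M) (μ : ℕ → M →₀ ℝ) (e : ℕ × ℝ × ℝ × (M → ℝ)) : Prop where
  r0 : 0 < e.2.1
  rR : e.2.1 ≤ e.2.2.1
  lip : L1 o e.2.2.2
  low : ∀ x, e.2.2.2 x ≠ 0 → e.2.1 < dist x o
  high : ∀ x, e.2.2.2 x ≠ 0 → dist x o ≤ 2 * e.2.2.1
  supp : ∀ x ∈ (μ e.1).support, dist x o ≤ e.2.2.1
  val : 49 / 600 ≤ pr (μ e.1) e.2.2.2
  small : ∀ f, L1 o f → |pr (μ e.1) (fun x => cut o e.2.1 x * f x)| ≤ 1 / 50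

theorem caseB (o : M) (μ : ℕ → M →₀ ℝ)
    (hf : ∀ j, ∃ f, L1 o f ∧ 1 ≤ pr (μ j) f)
    (hB : ∀ R : ℝ, 0 < R → ∀ᶠ j in atTop, ∀ f, L1 o f →
      pr (μ j) (fun x => cut o R x * f x) < 1 / 50) :
    ∃ f, L1 o f ∧ ∃ᶠ j in atTop, 1 / 1800 ≤ |pr (μ j) f| := by
  obtain ⟨e, he1, he2⟩ := exists_seq_of_forall_finset_exists
    (fun e : ℕ × ℝ × ℝ × (M → ℝ) => Piece o μ e)
    (fun e e' : ℕ × ℝ × ℝ × (M → ℝ) => e.1 < e'.1 ∧ 8 * e.2.2.1 ≤ e'.2.1) (by
      intro S hS
      have hSR : ∀ e ∈ S, 0 < e.2.2.1 := fun e he => (hS e he).r0.trans_le (hS e he).rR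
      set r : ℝ := 8 * (∑ e ∈ S, e.2.2.1) + 1 with hr
      have hr0 : 0 < r := by
        have : 0 ≤ ∑ e ∈ S, e.2.2.1 := Finset.sum_nonneg (fun e he => (hSR e he).le)
        linarith
      have h1 : ∀ᶠ j in (atTop : Filter ℕ), ∀ e ∈ S, e.1 < j := by
        rw [Finset.eventually_all]
        intro e _
        exact eventually_gt_atTop e.1
      obtain ⟨j, hj1, hj2⟩ := (h1.and (hB r hr0)).exists
      obtain ⟨f, hf1, hf2⟩ := hf j
      set R : ℝ := r + ∑ x ∈ (μ j).support, dist x o with hR
      have hrR : r ≤ R := by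
        have : 0 ≤ ∑ x ∈ (μ j).support, dist x o := Finset.sum_nonneg (fun _ _ => dist_nonneg)
        linarith
      have hsupp : ∀ x ∈ (μ j).support, dist x o ≤ R := by
        intro x hx
        have := Finset.single_le_sum (f := fun x => dist x o) (fun _ _ => dist_nonneg) hx
        linarith
      set G : M → ℝ := fun x => f x - cut o r x * f x with hG
      have hG0 : G o = 0 := by simp [hG, hf1.1]
      have hGL : ∀ x y, |G x - G y| ≤ 4 * dist x y := by
        intro x y
        have h3 := cut_mul o r hr0 1 zero_le_one f hf1.1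
          (fun x y => by rw [one_mul]; exact hf1.2 x y) x y
        have h4 := hf1.2 x y
        have e1 : G x - G y = (f x - f y) - (cut o r x * f x - cut o r y * f y) := by
          simp only [hG]
          ring
        rw [e1]
        have h5 := abs_sub (f x - f y) (cut o r x * f x - cut o r y * f y)
        linarith
      refine ⟨(j, r, R, fun x => 1 / (3 * 4) * (cut o R x * G x)), ⟨hr0, hrR, ?_, ?_, ?_, hsupp, ?_, ?_⟩,
        fun e he => ⟨hj1 e he, ?_⟩⟩
      · exact L1_cut o R (hr0.trans_le hrR) 4 (by norm_num) G hG0 hGL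
      · intro x hx
        simp only at hx ⊢
        by_contra hcon
        apply hx
        have : G x = 0 := by
          simp only [hG]
          rw [cut_one o r hr0 x (not_lt.1 hcon)]
          ring
        rw [this]
        ring
      · intro x hx
        simp only at hx ⊢
        by_contra hcon
        apply hx
        rw [cut_zero o R (hr0.trans_le hrR) x (not_le.1 hcon).le]
        ring
      · simp only
        have h3 : pr (μ j) (fun x => 1 / (3 * 4) * (cut o R x * G x)) = 1 / (3 * 4) * pr (μ j) G := by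
          rw [pr_mul]
          congr 1
          apply pr_congr
          intro x hx
          rw [cut_one o R (hr0.trans_le hrR) x (hsupp x hx), one_mul]
        have h4 : pr (μ j) G = pr (μ j) f - pr (μ j) (fun x => cut o r x * f x) := pr_sub _ _ _
        have h5 := hj2 f hf1
        rw [h3, h4]
        linarith
      · intro h hh
        simp only
        rw [abs_le]
        have h3 := hj2 h hh
        have h4 := hj2 _ (L1_neg o h hh)
        have e1 : pr (μ j) (fun x => cut o r x * - h x) = - pr (μ j) (fun x => cut o r x * h x) := by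
          have : (fun x => cut o r x * - h x) = fun x => (-1) * (cut o r x * h x) := by
            funext x
            ring
          rw [this, pr_mul]
          ring
        rw [e1] at h4
        constructor <;> linarith
      · simp only
        have := Finset.single_le_sum (f := fun e : ℕ × ℝ × ℝ × (M → ℝ) => e.2.2.1)
          (fun e he => (hSR e he).le) he
        linarith)
  set h : ℕ → M → ℝ := fun n => (e n).2.2.2 with hh
  have hsep0 : ∀ m n, m < n → ∀ x y, h m x ≠ 0 → h n y ≠ 0 → |h m x - h n y| ≤ 2 * dist x y := by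
    intro m n hmn x y hx hy
    have h1 := (he1 m).high x hx
    have h2 := (he1 n).low y hy
    have h3 := (he2 m n hmn).2
    have h4 := L1_abs o _ (he1 m).lip x
    have h5 := L1_abs o _ (he1 n).lip y
    have h6 : dist y o ≤ dist x y + dist x o := by
      rw [dist_comm x y]
      exact dist_triangle _ _ _
    have h7 : |h m x - h n y| ≤ |h m x| + |h n y| := abs_sub _ _
    have h8 : 0 ≤ dist x o := dist_nonneg
    have h4' : |h m x| ≤ dist x o := h4
    have h5' : |h n y| ≤ dist y o := h5
    linarith
  have hsep : ∀ m n, ∀ x y, h m x ≠ 0 → h n y ≠ 0 → |h m x - h n y| ≤ 2 * dist x y := by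
    intro m n x y hx hy
    rcases lt_trichotomy m n with h1 | h1 | h1
    · exact hsep0 m n h1 x y hx hy
    · subst h1
      have h2 := (he1 m).lip.2 x y
      have h3 : 0 ≤ dist x y := dist_nonneg
      have h2' : |h m x - h m y| ≤ dist x y := h2
      linarith
    · rw [abs_sub_comm, dist_comm]
      exact hsep0 n m h1 y x hy hx
  have hch : ∀ x : M, ∃ n, (∃ m, h m x ≠ 0) → h n x ≠ 0 := by
    intro x
    by_cases hx : ∃ m, h m x ≠ 0
    · obtain ⟨m, hm⟩ := hx
      exact ⟨m, fun _ => hm⟩
    · exact ⟨0, fun h => absurd h hx⟩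
  choose N hN using hch
  set F : M → ℝ := fun x => h (N x) x with hF
  have hF1 : ∀ m x, h m x ≠ 0 → F x = h m x := by
    intro m x hx
    have h1 := hsep (N x) m x x (hN x ⟨m, hx⟩) hx
    rw [dist_self, mul_zero] at h1
    have := abs_eq_zero.1 (le_antisymm h1 (abs_nonneg _))
    simp only [hF]
    linarith
  have hF2 : ∀ x, F x ≠ 0 → h (N x) x ≠ 0 := fun x hx => hx
  have hFL : ∀ x y, |F x - F y| ≤ 2 * dist x y := by
    intro x y
    have hd : 0 ≤ dist x y := dist_nonneg
    by_cases hx : F x = 0
    · by_cases hy : F y = 0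
      · rw [hx, hy, sub_self, abs_zero]
        linarith
      · have h1 : |h (N y) x - h (N y) y| ≤ dist x y := (he1 (N y)).lip.2 x y
        have h2 : h (N y) x = 0 := by
          by_contra h3
          exact h3 ((hF1 _ _ h3).symm.trans hx)
        rw [h2] at h1
        rw [hx]
        have h3 : F y = h (N y) y := rfl
        rw [h3]
        linarith
    · by_cases hy : F y = 0
      · have h1 : |h (N x) x - h (N x) y| ≤ dist x y := (he1 (N x)).lip.2 x y
        have h2 : h (N x) y = 0 := by
          by_contra h3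
          exact h3 ((hF1 _ _ h3).symm.trans hy)
        rw [h2] at h1
        rw [hy]
        have h3 : F x = h (N x) x := rfl
        rw [h3]
        linarith
      · exact hsep _ _ x y hx hy
  have hF0 : F o = 0 := (he1 (N o)).lip.1
  have hjmono : StrictMono (fun n => (e n).1) := fun m n hmn => (he2 m n hmn).1
  refine ⟨fun x => 1 / 2 * F x, ⟨by simp only [hF0, mul_zero], fun x y => ?_⟩, ?_⟩
  · rw [← mul_sub, abs_mul, abs_of_pos (by norm_num : (0 : ℝ) < 1 / 2)]
    have := hFL x y
    linarith
  · refine hjmono.tendsto_atTop.frequently (Filter.Frequently.of_forall (fun n => ?_))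
    -- evaluation at the n-th measure
    have hr0 := (he1 n).r0
    have h1 : pr (μ (e n).1) F = pr (μ (e n).1) (h n) + pr (μ (e n).1) (fun x => F x - h n x) := by
      rw [pr_sub]
      ring
    have h2 : pr (μ (e n).1) (fun x => F x - h n x) =
        3 * pr (μ (e n).1) (fun x => cut o (e n).2.1 x * (1 / 3 * (F x - h n x))) := by
      rw [← pr_mul]
      apply pr_congr
      intro x hx
      rcases le_or_gt (dist x o) (e n).2.1 with h3 | h3
      · rw [cut_one o _ hr0 x h3]
        ring
      · have h4 : F x = h n x := by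
          by_cases hx0 : F x = 0
          · by_contra h5
            have h6 : h n x ≠ 0 := fun h7 => h5 (hx0.trans h7.symm)
            exact h5 (hF1 n x h6)
          · have h5 := hF2 x hx0
            have h6 := (he1 n).supp x hx
            have h7 : N x = n := by
              rcases lt_trichotomy (N x) n with h8 | h8 | h8
              · exfalso
                have h9 := (he1 (N x)).high x h5
                have h10 := (he2 _ _ h8).2
                have h11 := (he1 (N x)).r0.trans_le (he1 (N x)).rR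
                linarith
              · exact h8
              · exfalso
                have h9 := (he1 (N x)).low x h5
                have h10 := (he2 _ _ h8).2
                have h11 := (he1 n).r0.trans_le (he1 n).rR
                linarith
            show h (N x) x = h n x
            rw [h7]
        rw [h4]
        ring
    have h3 : L1 o (fun x => 1 / 3 * (F x - h n x)) := by
      constructor
      · have h4 : h n o = 0 := (he1 n).lip.1
        simp only [hF0, h4, sub_self, mul_zero]
      · intro x y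
        have h4 := hFL x y
        have h5 : |h n x - h n y| ≤ dist x y := (he1 n).lip.2 x y
        rw [← mul_sub, abs_mul, abs_of_pos (by norm_num : (0 : ℝ) < 1 / 3)]
        have e1 : F x - h n x - (F y - h n y) = (F x - F y) - (h n x - h n y) := by ring
        rw [e1]
        have h6 := abs_sub (F x - F y) (h n x - h n y)
        linarith
    have h4 := (he1 n).small _ h3
    have h5 : 49 / 600 ≤ pr (μ (e n).1) (h n) := (he1 n).val
    have h6 : 1 / 1800 ≤ pr (μ (e n).1) (fun x => 1 / 2 * F x) := by
      rw [pr_mul, h1, h2]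
      rw [abs_le] at h4
      linarith [h4.1]
    exact h6.trans (le_abs_self _)

theorem strong_schur (o : M) (s : ℝ) (hs : 0 < s) (sep : ∀ x y : M, x ≠ y → s ≤ dist x y)
    (μ : ℕ → M →₀ ℝ) (B : ℝ) (hB : ∀ j f, L1 o f → |pr (μ j) f| ≤ B)
    (hf : ∀ j, ∃ f, L1 o f ∧ 1 ≤ pr (μ j) f) :
    ∃ f, L1 o f ∧ ∃ᶠ j in atTop, 1 / 1800 ≤ |pr (μ j) f| := by
  by_cases h : ∃ R : ℝ, 0 < R ∧ ∃ᶠ j in atTop, ∃ f, L1 o f ∧
      1 / 50 ≤ pr (μ j) (fun x => cut o R x * f x)
  · obtain ⟨R, hR, hA⟩ := h
    exact caseA o s hs sep μ B hB R hR hA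
  · push Not at h
    exact caseB o μ hf h

end Pool.Agent.J4H86.LF
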