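import Mathlib
import Pool.Agent.J4H86.LF.Unbounded
import Pool.Agent.J4H86.LF.Dual

set_option autoImplicit false
set_option linter.unusedSectionVars false

open Filter Topology

namespace Pool.Agent.J4H86.LF

universe u

/-- real-valued Lipschitz functions on `M` that vanish at the base point `o` -/
def lipSub (M : Type u) [MetricSpace M] (o : M) : Submodule ℝ (M → ℝ) where
  carrier := {f | f o = 0 ∧ ∃ K : ℝ, 0 ≤ K ∧ ∀ x y, |f x - f y| ≤ K * dist x y}
  zero_mem' := ⟨rfl, 0, le_rfl, fun x y => by simp⟩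
  add_mem' := by
    rintro f g ⟨hf0, K, hK, hf⟩ ⟨hg0, L, hL, hg⟩
    refine ⟨by simp [hf0, hg0], K + L, add_nonneg hK hL, fun x y => ?_⟩
    have e : (f + g) x - (f + g) y = (f x - f y) + (g x - g y) := by
      simp only [Pi.add_apply]
      ring
    rw [e, add_mul]
    exact (abs_add_le _ _).trans (add_le_add (hf x y) (hg x y))
  smul_mem' := by
    rintro c f ⟨hf0, K, hK, hf⟩
    refine ⟨by simp [hf0], |c| * K, mul_nonneg (abs_nonneg _) hK, fun x y => ?_⟩
    have e : (c • f) x - (c • f) y = c * (f x - f y) := by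
      simp only [Pi.smul_apply, smul_eq_mul]
      ring
    rw [e, abs_mul, mul_assoc]
    exact mul_le_mul_of_nonneg_left (hf x y) (abs_nonneg _)

/-- the space `Lip₀(M)` -/
def Lip0 (M : Type u) [MetricSpace M] (o : M) : Type u := lipSub M o

variable {M : Type u} [MetricSpace M] {o : M}

instance instLipGroup : AddCommGroup (Lip0 M o) := Submodule.addCommGroup (lipSub M o)
instance instLipModule : Module ℝ (Lip0 M o) := Submodule.module (lipSub M o)

/-- the function underlying an element of `Lip₀(M)` -/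
def Lip0.fn (f : Lip0 M o) : M → ℝ := f.1

theorem Lip0.fn_base (f : Lip0 M o) : f.fn o = 0 := f.2.1
theorem Lip0.fn_add (f g : Lip0 M o) (x : M) : (f + g).fn x = f.fn x + g.fn x := rfl
theorem Lip0.fn_smul (c : ℝ) (f : Lip0 M o) (x : M) : (c • f).fn x = c * f.fn x := rfl
theorem Lip0.fn_neg (f : Lip0 M o) (x : M) : (-f).fn x = - f.fn x := rfl
theorem Lip0.fn_zero (x : M) : (0 : Lip0 M o).fn x = 0 := rfl
theorem Lip0.ext' (f g : Lip0 M o) (h : ∀ x, f.fn x = g.fn x) : f = g :=
  Subtype.ext (funext h)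

/-- the Lipschitz constant of a function -/
noncomputable def lipConst (f : M → ℝ) : ℝ :=
  sInf {K : ℝ | 0 ≤ K ∧ ∀ x y, |f x - f y| ≤ K * dist x y}

theorem lipConst_nonneg (f : M → ℝ) : 0 ≤ lipConst f := Real.sInf_nonneg (fun _ h => h.1)

theorem lipConst_le (f : M → ℝ) (K : ℝ) (hK : 0 ≤ K) (h : ∀ x y, |f x - f y| ≤ K * dist x y) :
    lipConst f ≤ K := by
  unfold lipConst
  apply csInf_le
  · exact ⟨0, fun _ h => h.1⟩
  · exact ⟨hK, h⟩

theorem le_lipConst (f : Lip0 M o) (x y : M) : |f.fn x - f.fn y| ≤ lipConst f.fn * dist x y := by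
  obtain ⟨K, hK, h⟩ := f.2.2
  rcases eq_or_ne x y with rfl | hxy
  · simp
  · have hd : 0 < dist x y := dist_pos.2 hxy
    rw [← div_le_iff₀ hd]
    unfold lipConst
    apply le_csInf
    · exact ⟨K, hK, h⟩
    · rintro L ⟨_, hL⟩
      rw [div_le_iff₀ hd]
      exact hL x y

noncomputable instance : NormedAddCommGroup (Lip0 M o) :=
  AddGroupNorm.toNormedAddCommGroup
    { toFun := fun f => lipConst f.fn
      map_zero' := by
        apply le_antisymm _ (lipConst_nonneg _)
        apply lipConst_le _ 0 le_rfl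
        intro x y
        simp [Lip0.fn_zero]
      add_le' := by
        intro f g
        apply lipConst_le _ _ (add_nonneg (lipConst_nonneg _) (lipConst_nonneg _))
        intro x y
        rw [Lip0.fn_add, Lip0.fn_add]
        have e : f.fn x + g.fn x - (f.fn y + g.fn y) = (f.fn x - f.fn y) + (g.fn x - g.fn y) := by
          ring
        rw [e, add_mul]
        exact (abs_add_le _ _).trans (add_le_add (le_lipConst f x y) (le_lipConst g x y))
      neg' := by
        intro f
        simp only [lipConst]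
        congr 1
        ext K
        simp only [Set.mem_ofPred_eq, Lip0.fn_neg]
        have e : ∀ x y, |-f.fn x - -f.fn y| = |f.fn x - f.fn y| := by
          intro x y
          rw [← abs_neg]
          congr 1
          ring
        simp only [e]
      eq_zero_of_map_eq_zero' := by
        intro f hf
        apply Lip0.ext'
        intro x
        have h := le_lipConst f x o
        have hf' : lipConst f.fn = 0 := hf
        rw [hf', zero_mul, f.fn_base, sub_zero] at h
        rw [Lip0.fn_zero]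
        exact abs_eq_zero.1 (le_antisymm h (abs_nonneg _)) }

theorem Lip0.norm_def (f : Lip0 M o) : ‖f‖ = lipConst f.fn := rfl

noncomputable instance : NormedSpace ℝ (Lip0 M o) where
  norm_smul_le := by
    intro c f
    rw [Lip0.norm_def, Lip0.norm_def]
    apply lipConst_le _ _ (mul_nonneg (norm_nonneg _) (lipConst_nonneg _))
    intro x y
    rw [Lip0.fn_smul, Lip0.fn_smul, ← mul_sub, abs_mul, Real.norm_eq_abs, mul_assoc]
    exact mul_le_mul_of_nonneg_left (le_lipConst f x y) (abs_nonneg _)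

theorem ev_bound (x : M) (f : Lip0 M o) : ‖f.fn x‖ ≤ dist x o * ‖f‖ := by
  have h := le_lipConst f x o
  rw [f.fn_base, sub_zero] at h
  rw [Real.norm_eq_abs, mul_comm]
  exact h

/-- the evaluation functional at `x` -/
noncomputable def ev (M : Type u) [MetricSpace M] (o : M) (x : M) : Dual (Lip0 M o) :=
  (LinearMap.mkContinuous
    { toFun := fun f : Lip0 M o => f.fn x
      map_add' := fun _ _ => rfl
      map_smul' := fun _ _ => rfl } (dist x o) (ev_bound x) : StrongDual ℝ (Lip0 M o))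

theorem ev_apply (x : M) (f : Lip0 M o) : (ev M o x).app f = f.fn x := rfl

/-- the Lipschitz-free space `𝓕(M)`: the closed linear span of the evaluations in `Lip₀(M)*` -/
noncomputable def Free (M : Type u) [MetricSpace M] (o : M) :
    Submodule ℝ (Dual (Lip0 M o)) :=
  (Submodule.span ℝ (Set.range (ev M o))).topologicalClosure

/-- a `1`-Lipschitz function gives an element of norm at most one -/
noncomputable def mkL (f : M → ℝ) (hf : L1 o f) : Lip0 M o :=
  ⟨f, hf.1, 1, zero_le_one, fun x y => by rw [one_mul]; exact hf.2 x y⟩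

theorem mkL_norm (f : M → ℝ) (hf : L1 o f) : ‖mkL f hf‖ ≤ 1 := by
  rw [Lip0.norm_def]
  apply lipConst_le _ 1 zero_le_one
  intro x y
  rw [one_mul]
  exact hf.2 x y

theorem L1_of_norm (f : Lip0 M o) (hf : ‖f‖ ≤ 1) : L1 o f.fn := by
  refine ⟨f.fn_base, fun x y => ?_⟩
  have h1 := le_lipConst f x y
  rw [Lip0.norm_def] at hf
  have h2 : 0 ≤ dist x y := dist_nonneg
  nlinarith

/-- the functional given by a finitely supported measure -/
noncomputable def fin0 (μ : M →₀ ℝ) : Dual (Lip0 M o) := ∑ x ∈ μ.support, μ x • ev M o x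

noncomputable def fin (μ : M →₀ ℝ) : StrongDual ℝ (Lip0 M o) := fin0 μ

theorem fin_apply (μ : M →₀ ℝ) (f : Lip0 M o) : fin μ f = pr μ f.fn := by
  have key : ∀ S : Finset M, Dual.app (∑ x ∈ S, μ x • ev M o x) f =
      ∑ x ∈ S, μ x * f.fn x := by
    classical
    intro S
    induction S using Finset.induction_on with
    | empty => rfl
    | insert a S ha ih =>
      rw [Finset.sum_insert ha, Finset.sum_insert ha, ← ih]
      rfl
  exact key μ.support

theorem exists_fin (d : StrongDual ℝ (Lip0 M o)) (hd : (show Dual (Lip0 M o) from d) ∈ Free M o)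
    (ε : ℝ) (hε : 0 < ε) : ∃ μ : M →₀ ℝ, ‖d - fin μ‖ < ε := by
  have h1 : (show Dual (Lip0 M o) from d) ∈ closure ((Submodule.span ℝ (Set.range (ev M o)) :
      Submodule ℝ (Dual (Lip0 M o))) : Set (Dual (Lip0 M o))) := hd
  rw [Metric.mem_closure_iff] at h1
  obtain ⟨b, hb, hdb⟩ := h1 ε hε
  have h2 : b ∈ Submodule.span ℝ (Set.range (ev M o)) := hb
  rw [Finsupp.mem_span_range_iff_exists_finsupp] at h2
  obtain ⟨μ, hμ⟩ := h2
  refine ⟨μ, ?_⟩
  have h3 : (fin0 μ : Dual (Lip0 M o)) = b := by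
    rw [← hμ]
    rfl
  rw [← h3, dist_eq_norm] at hdb
  exact hdb

/-- the Lipschitz-free space, as a normed space -/
def FreeSpace (M : Type u) [MetricSpace M] (o : M) : Type u := Free M o

noncomputable instance instFreeGroup : NormedAddCommGroup (FreeSpace M o) :=
  Submodule.normedAddCommGroup (Free M o)
noncomputable instance instFreeSpace : NormedSpace ℝ (FreeSpace M o) :=
  Submodule.normedSpace (Free M o)

/-- the functional underlying an element of the free space -/
def FreeSpace.fn (d : FreeSpace M o) : StrongDual ℝ (Lip0 M o) := d.1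

theorem FreeSpace.norm_fn (d : FreeSpace M o) : ‖d.fn‖ = ‖d‖ := rfl
theorem FreeSpace.fn_mem (d : FreeSpace M o) : (show Dual (Lip0 M o) from d.fn) ∈ Free M o := d.2

/-- the evaluation of a Lipschitz function, as a functional on the free space -/
noncomputable def evalF (f : Lip0 M o) : StrongDual ℝ (FreeSpace M o) :=
  LinearMap.mkContinuous
    { toFun := fun d => d.fn f
      map_add' := fun d e => rfl
      map_smul' := fun c d => rfl } ‖f‖ (by
    intro d
    rw [mul_comm]
    exact d.fn.le_opNorm f)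

theorem evalF_apply (f : Lip0 M o) (d : FreeSpace M o) : evalF f d = d.fn f := rfl

theorem evalF_norm (f : Lip0 M o) (hf : ‖f‖ ≤ 1) : ‖evalF f‖ ≤ 1 :=
  (LinearMap.mkContinuous_norm_le _ (norm_nonneg _) _).trans hf

/-- property (P) with constant `c` -/
def PropP (X : Type u) [NormedAddCommGroup X] [NormedSpace ℝ X] (c : ℝ) : Prop :=
  ∀ (d : ℕ → X) (B : ℝ), (∀ j, ‖d j‖ ≤ B) → (∀ j, 1 ≤ ‖d j‖) →
    ∃ g : StrongDual ℝ X, ‖g‖ ≤ 1 ∧ ∃ᶠ j in atTop, c ≤ |g (d j)|

theorem free_propP (M : Type u) [MetricSpace M] (o : M) (s : ℝ) (hs : 0 < s)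
    (sep : ∀ x y : M, x ≠ y → s ≤ dist x y) : PropP (FreeSpace M o) (1 / 4000) := by
  intro d B hB hd
  have hex : ∀ j, ∃ μ : M →₀ ℝ, ‖(d j).fn - fin μ‖ < 1 / 50000 := fun j =>
    exists_fin _ (d j).fn_mem _ (by norm_num)
  choose μ hμ using hex
  -- rescaled measures
  set ν : ℕ → M →₀ ℝ := fun j => (2 : ℝ) • μ j with hν
  have hprν : ∀ j f, pr (ν j) f = 2 * pr (μ j) f := by
    intro j f
    have hsup : (ν j).support ⊆ (μ j).support := Finsupp.support_smul
    classical
    rw [pr_subset (ν j) (μ j).support hsup]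
    unfold pr
    rw [Finset.mul_sum]
    refine Finset.sum_congr rfl (fun x _ => ?_)
    simp only [hν, Finsupp.smul_apply, smul_eq_mul]
    ring
  have hclose : ∀ j f, L1 o f → ∀ hf : L1 o f,
      |(d j).fn (mkL f hf) - pr (μ j) f| ≤ 1 / 50000 := by
    intro j f _ hf
    have h1 : pr (μ j) f = fin (μ j) (mkL f hf) := (fin_apply (μ j) (mkL f hf)).symm
    have h1' : (d j).fn (mkL f hf) - fin (μ j) (mkL f hf) =
        ((d j).fn - (fin (μ j) : StrongDual ℝ (Lip0 M o))) (mkL f hf) := rfl
    rw [h1, h1', ← Real.norm_eq_abs]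
    have h2 := ((d j).fn - (fin (μ j) : StrongDual ℝ (Lip0 M o))).le_opNorm (mkL f hf)
    have h3 := mkL_norm f hf
    have h4 := (hμ j).le
    calc ‖((d j).fn - (fin (μ j) : StrongDual ℝ (Lip0 M o))) (mkL f hf)‖
        ≤ ‖(d j).fn - fin (μ j)‖ * ‖mkL f hf‖ := h2
      _ ≤ 1 / 50000 * 1 := mul_le_mul h4 h3 (norm_nonneg _) (by norm_num)
      _ = 1 / 50000 := mul_one _
  obtain ⟨f, hf1, hf2⟩ := strong_schur o s hs sep ν (2 * (B + 1)) (by
    intro j f hf
    rw [hprν, abs_mul, abs_of_pos (by norm_num : (0 : ℝ) < 2)]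
    have h1 := hclose j f hf hf
    have h2 : |(d j).fn (mkL f hf)| ≤ B := by
      have h3 := (d j).fn.le_opNorm (mkL f hf)
      have h4 := mkL_norm f hf
      have h5 : ‖(d j).fn‖ ≤ B := hB j
      rw [← Real.norm_eq_abs]
      calc ‖(d j).fn (mkL f hf)‖
          ≤ ‖(d j).fn‖ * ‖mkL f hf‖ := h3
        _ ≤ B * 1 := mul_le_mul h5 h4 (norm_nonneg _) ((norm_nonneg _).trans h5)
        _ = B := mul_one _
    rw [abs_le] at h1 h2
    apply mul_le_mul_of_nonneg_left _ (by norm_num)
    rw [abs_le]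
    constructor <;> linarith [h1.1, h1.2, h2.1, h2.2]) (by
    intro j
    -- a norming function
    have h1 : 1 ≤ ‖(d j).fn‖ := hd j
    have h2 : (3 / 4 : ℝ) < ‖(d j).fn‖ := by linarith
    obtain ⟨f, hf, hf'⟩ : ∃ f : Lip0 M o, ‖f‖ ≤ 1 ∧ 3 / 4 ≤ |(d j).fn f| := by
      by_contra hcon
      push Not at hcon
      have h3 : ‖(d j).fn‖ ≤ 3 / 4 := by
        apply ContinuousLinearMap.opNorm_le_of_unit_norm (by norm_num)
        intro f hf
        rw [Real.norm_eq_abs]
        exact (hcon f hf.le).le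
      linarith
    -- sign
    obtain ⟨f', hf1', hf2'⟩ : ∃ f : Lip0 M o, ‖f‖ ≤ 1 ∧ 3 / 4 ≤ (d j).fn f := by
      rcases le_total 0 ((d j).fn f) with h | h
      · exact ⟨f, hf, by rwa [abs_of_nonneg h] at hf'⟩
      · refine ⟨-f, by rwa [norm_neg], ?_⟩
        rw [map_neg]
        rwa [abs_of_nonpos h] at hf'
    have hL := L1_of_norm f' hf1'
    refine ⟨f'.fn, hL, ?_⟩
    rw [hprν]
    have h5 := hclose j f'.fn hL hL
    have h6 : mkL f'.fn hL = f' := rfl
    rw [h6, abs_le] at h5
    linarith [h5.2])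
  refine ⟨evalF (mkL f hf1), evalF_norm _ (mkL_norm f hf1), hf2.mono (fun j hj => ?_)⟩
  rw [hprν, abs_mul, abs_of_pos (by norm_num : (0 : ℝ) < 2)] at hj
  have h1 := hclose j f hf1 hf1
  rw [evalF_apply]
  have h2 : |pr (μ j) f| ≤ |(d j).fn (mkL f hf1)| +
      |(d j).fn (mkL f hf1) - pr (μ j) f| := by
    have e : pr (μ j) f = (d j).fn (mkL f hf1) -
      ((d j).fn (mkL f hf1) - pr (μ j) f) := by ring
    calc |pr (μ j) f| = |(d j).fn (mkL f hf1) -
      ((d j).fn (mkL f hf1) - pr (μ j) f)| := by rw [← e]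
      _ ≤ _ := abs_sub _ _
  linarith

end Pool.Agent.J4H86.LF
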