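import Mathlib
import Pool.Agent.J4H86.LF.Space

set_option autoImplicit false
set_option linter.unusedSectionVars false

open Filter Topology
open scoped ENNReal

namespace Pool.Agent.J4H86.LF

universe u
variable {X : Type u} [NormedAddCommGroup X] [NormedSpace ℝ X]

/-- the canonical embedding into the bidual -/
noncomputable abbrev JJ (X : Type u) [NormedAddCommGroup X] [NormedSpace ℝ X] :
    X →L[ℝ] StrongDual ℝ (StrongDual ℝ X) := NormedSpace.inclusionInDoubleDual ℝ X

/-- `φ` is the limit along the ultrafilter of a sequence in `A` -/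
def IsLim (A : Set X) (φ : StrongDual ℝ (StrongDual ℝ X)) : Prop :=
  ∃ x : ℕ → X, (∀ n, x n ∈ A) ∧ ∀ f : StrongDual ℝ X,
    Tendsto (fun n => f (x n)) (hyperfilter ℕ : Ultrafilter ℕ) (𝓝 (φ f))

theorem hyper_le : ((hyperfilter ℕ : Ultrafilter ℕ) : Filter ℕ) ≤ atTop := by
  rw [← Nat.cofinite_eq_atTop]
  exact hyperfilter_le_cofinite

/-- limits of bounded sequences along the ultrafilter -/
theorem exists_limit (x : ℕ → X) (B : ℝ) (hB : ∀ n, ‖x n‖ ≤ B) :
    ∃ φ : StrongDual ℝ (StrongDual ℝ X),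
      ∀ f : StrongDual ℝ X, Tendsto (fun n => f (x n)) (hyperfilter ℕ : Ultrafilter ℕ)
        (𝓝 (φ f)) := by
  have hbd : ∀ (f : StrongDual ℝ X) n, |f (x n)| ≤ B * ‖f‖ := by
    intro f n
    have h1 := f.le_opNorm (x n)
    rw [Real.norm_eq_abs] at h1
    have h2 := mul_le_mul_of_nonneg_left (hB n) (norm_nonneg f)
    linarith
  have hlim : ∀ f : StrongDual ℝ X, ∃ l : ℝ,
      Tendsto (fun n => f (x n)) (hyperfilter ℕ : Ultrafilter ℕ) (𝓝 l) := by
    intro f
    have hcomp : IsCompact (Set.Icc (-(B * ‖f‖)) (B * ‖f‖)) := isCompact_Icc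
    obtain ⟨l, _, hl⟩ := hcomp.ultrafilter_le_nhds' ((hyperfilter ℕ).map (fun n => f (x n)))
      (Filter.Eventually.of_forall (f := ((hyperfilter ℕ : Ultrafilter ℕ) : Filter ℕ))
        (fun n => abs_le.1 (hbd f n)))
    exact ⟨l, hl⟩
  choose l hl using hlim
  let φ0 : StrongDual ℝ X →ₗ[ℝ] ℝ :=
    { toFun := l
      map_add' := fun f g => tendsto_nhds_unique (hl (f + g)) ((hl f).add (hl g))
      map_smul' := fun c f => tendsto_nhds_unique (hl (c • f)) ((hl f).const_mul c) }
  let φ : StrongDual ℝ (StrongDual ℝ X) := φ0.mkContinuous B (by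
    intro f
    rw [Real.norm_eq_abs]
    exact le_of_tendsto' (hl f).abs (fun n => hbd f n))
  exact ⟨φ, hl⟩

/-- distance to a subspace containing the sequence -/
theorem near_sub (W : Submodule ℝ X) (ψ : StrongDual ℝ (StrongDual ℝ X))
    (hW : ∀ h : StrongDual ℝ X, (∀ w ∈ W, h w = 0) → ψ h = 0) (z : X) (ε : ℝ)
    (hz : ‖ψ - JJ X z‖ < ε) : ∃ w ∈ W, ‖z - w‖ < ε := by
  by_contra hcon
  push Not at hcon
  have hε : 0 < ε := (norm_nonneg (ψ - JJ X z)).trans_lt hz
  have hdisj : Disjoint (Metric.ball z ε) (W : Set X) := by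
    rw [Set.disjoint_left]
    intro w hw hw'
    have h1 := hcon w hw'
    rw [Metric.mem_ball, dist_comm, dist_eq_norm] at hw
    linarith
  obtain ⟨f, a, hf1, hf2⟩ := geometric_hahn_banach_open (convex_ball z ε) Metric.isOpen_ball
    W.convex hdisj
  have ha : a ≤ 0 := by
    have := hf2 0 W.zero_mem
    rwa [map_zero] at this
  have hfW : ∀ w ∈ W, f w = 0 := by
    intro w hw
    by_contra h0
    have h1 := hf2 (((a - 1) / f w) • w) (W.smul_mem _ hw)
    rw [map_smul, smul_eq_mul, div_mul_cancel₀ _ h0] at h1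
    linarith
  have hψ : ψ f = 0 := hW f hfW
  -- norm estimate
  have hz0 : f z < 0 := (hf1 z (Metric.mem_ball_self hε)).trans_le ha
  have hnorm : ‖f‖ ≤ (-f z) / ε := by
    apply ContinuousLinearMap.opNorm_le_bound _ (div_nonneg (by linarith) hε.le)
    intro v
    have key : ∀ v : X, ε * f v ≤ -f z * ‖v‖ := by
      intro v
      rcases eq_or_ne v 0 with rfl | hv
      · simp
      · have hv0 : 0 < ‖v‖ := norm_pos_iff.2 hv
        have h1 : ∀ t : ℝ, 0 ≤ t → t < ε → t * f v ≤ -f z * ‖v‖ := by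
          intro t ht0 ht
          have h2 : z + (t / ‖v‖) • v ∈ Metric.ball z ε := by
            rw [Metric.mem_ball, dist_eq_norm, add_sub_cancel_left, norm_smul, norm_div, norm_norm,
              Real.norm_eq_abs, abs_of_nonneg ht0, div_mul_cancel₀ _ hv0.ne']
            exact ht
          have h3 := (hf1 _ h2).trans_le ha
          rw [map_add, map_smul, smul_eq_mul] at h3
          have h4 : t / ‖v‖ * f v < -f z := by linarith
          have h5 := mul_lt_mul_of_pos_right h4 hv0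
          have h6 : t / ‖v‖ * f v * ‖v‖ = t * f v := by
            field_simp
          rw [h6] at h5
          exact h5.le
        by_contra h2
        push Not at h2
        have hfv : 0 < f v := by
          by_contra h3
          push Not at h3
          have : 0 ≤ -f z * ‖v‖ := mul_nonneg (by linarith) hv0.le
          nlinarith
        have h3 : (-f z * ‖v‖) / f v < ε := by rwa [div_lt_iff₀ hfv]
        obtain ⟨t, ht1, ht2⟩ := exists_between h3
        have h4 := h1 t (by
          have : 0 ≤ (-f z * ‖v‖) / f v :=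
            div_nonneg (mul_nonneg (by linarith) hv0.le) hfv.le
          linarith) ht2
        rw [div_lt_iff₀ hfv] at ht1
        linarith
    rw [Real.norm_eq_abs, abs_le, div_mul_eq_mul_div]
    have h1 := key v
    have h2 := key (-v)
    rw [map_neg, norm_neg] at h2
    constructor
    · rw [neg_le, le_div_iff₀ hε]
      linarith
    · rw [le_div_iff₀ hε]
      linarith
  have h1 : |(ψ - JJ X z) f| ≤ ‖ψ - JJ X z‖ * ‖f‖ := (ψ - JJ X z).le_opNorm f
  have h2 : (ψ - JJ X z) f = ψ f - f z := rfl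
  rw [h2, hψ, zero_sub, abs_neg, abs_of_neg hz0] at h1
  have hf0 : 0 < ‖f‖ := by
    rw [norm_pos_iff]
    rintro rfl
    simp at hz0
  have h3 : ‖ψ - JJ X z‖ * ‖f‖ < ε * ‖f‖ := mul_lt_mul_of_pos_right hz hf0
  rw [le_div_iff₀ hε] at hnorm
  linarith

/-- the main estimate -/
theorem finite_net (c : ℝ) (hP : PropP X c) (A : Set X) (B : ℝ)
    (hB : ∀ a ∈ A, ‖a‖ ≤ B) (ε : ℝ) (hA : ∀ φ, IsLim A φ → ∃ z : X, ‖φ - JJ X z‖ < ε) (r : ℝ)
    (hr0 : 0 < r) (hr : 12 * ε < c * r) : ∃ K : Finset X, ∀ a ∈ A, ∃ z ∈ K, ‖a - z‖ < r := by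
  by_contra hcon
  push Not at hcon
  -- a separated sequence
  obtain ⟨x, hxA, hxr⟩ := exists_seq_of_forall_finset_exists (fun x : X => x ∈ A)
    (fun x y : X => r ≤ ‖y - x‖) (by
      intro S _
      obtain ⟨a, ha, ha'⟩ := hcon S
      exact ⟨a, ha, fun x hx => ha' x hx⟩)
  have hxr' : ∀ m n, m ≠ n → r ≤ ‖x m - x n‖ := by
    intro m n hmn
    rcases lt_or_gt_of_ne hmn with h | h
    · rw [norm_sub_rev]
      exact hxr m n h
    · exact hxr n m h
  obtain ⟨φ, hφ1⟩ := exists_limit x B (fun n => hB _ (hxA n))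
  obtain ⟨z, hz⟩ := hA φ ⟨x, hxA, hφ1⟩
  have hε : 0 < ε := (norm_nonneg (φ - JJ X z)).trans_lt hz
  set W : Submodule ℝ X := (Submodule.span ℝ (Set.range x)).topologicalClosure with hW
  have hxW : ∀ n, x n ∈ W := fun n =>
    Submodule.le_topologicalClosure _ (Submodule.subset_span ⟨n, rfl⟩)
  have hsep : TopologicalSpace.IsSeparable (W : Set X) := by
    have h1 : TopologicalSpace.IsSeparable (Set.range x) := (Set.countable_range x).isSeparable
    exact (h1.span (R := ℝ)).closure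
  obtain ⟨t, htW, htc, htd⟩ := hsep.exists_countable_dense_subset
  have htne : t.Nonempty := by
    rcases t.eq_empty_or_nonempty with h | h
    · exfalso
      rw [h, closure_empty] at htd
      exact htd (W.zero_mem)
    · exact h
  obtain ⟨y, hy⟩ := htc.exists_eq_range htne
  choose f hf1 hf2 using fun i : ℕ => exists_dual_vector'' ℝ (y i)
  -- norming
  have hnorming : ∀ w ∈ W, ∀ b : ℝ, (∀ i, |f i w| ≤ b) → ‖w‖ ≤ b := by
    intro w hw b hb
    apply le_of_forall_pos_le_add
    intro δ hδ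
    have h1 := htd hw
    rw [Metric.mem_closure_iff] at h1
    obtain ⟨v, hv, hv'⟩ := h1 (δ / 2) (by linarith)
    rw [hy] at hv
    obtain ⟨i, rfl⟩ := hv
    rw [dist_eq_norm] at hv'
    have h2 : ‖w‖ ≤ ‖w - y i‖ + ‖y i‖ := by
      have := norm_add_le (w - y i) (y i)
      rwa [sub_add_cancel] at this
    have h3 : ‖y i‖ = f i (y i) := (hf2 i).symm
    have h4 : f i (y i) = f i w - f i (w - y i) := by
      rw [map_sub]
      ring
    have h5 : |f i (w - y i)| ≤ ‖w - y i‖ := by
      have h6 := (f i).le_opNorm (w - y i)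
      rw [Real.norm_eq_abs] at h6
      refine h6.trans ?_
      have := mul_le_mul_of_nonneg_right (hf1 i) (norm_nonneg (w - y i))
      linarith
    have h6 := hb i
    rw [abs_le] at h5 h6
    linarith [h5.1, h6.2]
  -- the subsequence
  obtain ⟨k, hk1, hk2⟩ := Filter.extraction_forall_of_frequently
    (P := fun m n => ∀ i ∈ Finset.range (m + 1), |f i (x n) - φ (f i)| < 1 / ((m : ℝ) + 1)) (by
      intro m
      have h1 : ∀ᶠ n in ((hyperfilter ℕ : Ultrafilter ℕ) : Filter ℕ),
          ∀ i ∈ Finset.range (m + 1), |f i (x n) - φ (f i)| < 1 / ((m : ℝ) + 1) := by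
        rw [Finset.eventually_all]
        intro i _
        have h2 : Tendsto (fun n => |f i (x n) - φ (f i)|) (hyperfilter ℕ : Ultrafilter ℕ) (𝓝 0) := by
          have := ((hφ1 (f i)).sub_const (φ (f i))).abs
          rwa [sub_self, abs_zero] at this
        exact h2.eventually_lt_const (by positivity)
      exact h1.frequently.filter_mono hyper_le)
  have hsub : ∀ i, Tendsto (fun m => f i (x (k m))) atTop (𝓝 (φ (f i))) := by
    intro i
    rw [tendsto_iff_dist_tendsto_zero]
    apply squeeze_zero' (Filter.Eventually.of_forall (fun _ => dist_nonneg)) _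
      (tendsto_one_div_add_atTop_nhds_zero_nat (𝕜 := ℝ))
    filter_upwards [eventually_ge_atTop i] with m hm
    rw [Real.dist_eq]
    exact (hk2 m i (Finset.mem_range.2 (by omega))).le
  -- the approximating element
  have hlimW : ∀ (ψ : StrongDual ℝ (StrongDual ℝ X)) (p : ℕ → ℕ),
      (∀ h : StrongDual ℝ X, Tendsto (fun n => h (x (p n))) (hyperfilter ℕ : Ultrafilter ℕ)
        (𝓝 (ψ h))) → ∀ h : StrongDual ℝ X, (∀ w ∈ W, h w = 0) → ψ h = 0 := by
    intro ψ p hψ h hh
    have h1 := hψ h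
    have h2 : (fun n => h (x (p n))) = fun _ => (0 : ℝ) := by
      funext n
      exact hh _ (hxW _)
    rw [h2] at h1
    exact tendsto_nhds_unique h1 tendsto_const_nhds
  obtain ⟨z', hz'W, hz'⟩ := near_sub W φ (hlimW φ id hφ1) z ε hz
  have hφz' : ‖φ - JJ X z'‖ ≤ 2 * ε := by
    have h1 : φ - JJ X z' = (φ - JJ X z) + JJ X (z - z') := by
      rw [map_sub]
      abel
    rw [h1]
    have h2 : ‖JJ X (z - z')‖ = ‖z - z'‖ := by
      have := NormedSpace.inclusionInDoubleDualLi (𝕜 := ℝ) (E := X) |>.norm_map (z - z')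
      exact this
    have h3 := norm_add_le (φ - JJ X z) (JJ X (z - z'))
    linarith
  -- the differences are large
  obtain ⟨k0, hk0⟩ : ∃ k0 : ℕ, ∀ m, k0 ≤ m → r / 2 ≤ ‖x (k m) - z'‖ := by
    by_cases h : ∃ m1, ‖x (k m1) - z'‖ < r / 2
    · obtain ⟨m1, hm1⟩ := h
      refine ⟨m1 + 1, fun m hm => ?_⟩
      have h1 := hxr' (k m) (k m1) (by
        intro h2
        have := hk1.injective h2
        omega)
      have h2 : ‖x (k m) - x (k m1)‖ ≤ ‖x (k m) - z'‖ + ‖x (k m1) - z'‖ := by
        have := norm_sub_le (x (k m) - z') (x (k m1) - z')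
        rwa [sub_sub_sub_cancel_right] at this
      linarith
    · push Not at h
      exact ⟨0, fun m _ => h m⟩
  obtain ⟨g, hg1, hg2⟩ := hP (fun m => (2 / r) • (x (k (m + k0)) - z')) ((2 / r) * (B + ‖z'‖)) (by
    intro m
    rw [norm_smul, Real.norm_eq_abs, abs_of_pos (by positivity)]
    apply mul_le_mul_of_nonneg_left _ (by positivity)
    have h1 := norm_sub_le (x (k (m + k0))) z'
    have h2 := hB _ (hxA (k (m + k0)))
    linarith) (by
    intro m
    rw [norm_smul, Real.norm_eq_abs, abs_of_pos (by positivity)]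
    have h1 := hk0 (m + k0) (by omega)
    rw [div_mul_eq_mul_div, le_div_iff₀ hr0]
    linarith)
  obtain ⟨q, hq1, hq2⟩ := extraction_of_frequently_atTop hg2
  set p : ℕ → ℕ := fun n => k (q n + k0) with hp
  have hpg : ∀ n, c * r / 2 ≤ |g (x (p n)) - g z'| := by
    intro n
    have h1 : c ≤ |g ((2 / r) • (x (p n) - z'))| := hq2 n
    rw [map_smul, smul_eq_mul, abs_mul, abs_of_pos (by positivity : 0 < 2 / r), map_sub,
      div_mul_eq_mul_div, le_div_iff₀ hr0] at h1
    linarith
  obtain ⟨ψ, hψ1⟩ := exists_limit (fun n => x (p n)) B (fun n => hB _ (hxA _))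
  obtain ⟨v, hv⟩ := hA ψ ⟨fun n => x (p n), fun n => hxA _, hψ1⟩
  obtain ⟨v', hv'W, hv'⟩ := near_sub W ψ (hlimW ψ p hψ1) v ε hv
  have hψv' : ‖ψ - JJ X v'‖ ≤ 2 * ε := by
    have h1 : ψ - JJ X v' = (ψ - JJ X v) + JJ X (v - v') := by
      rw [map_sub]
      abel
    rw [h1]
    have h2 : ‖JJ X (v - v')‖ = ‖v - v'‖ := by
      have := NormedSpace.inclusionInDoubleDualLi (𝕜 := ℝ) (E := X) |>.norm_map (v - v')
      exact this
    have h3 := norm_add_le (ψ - JJ X v) (JJ X (v - v'))
    linarith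
  have hψf : ∀ i, ψ (f i) = φ (f i) := by
    intro i
    have h1 : Tendsto (fun n => q n + k0) atTop atTop :=
      (tendsto_add_atTop_nat k0).comp hq1.tendsto_atTop
    have h2 : Tendsto (fun n => f i (x (p n))) (hyperfilter ℕ : Ultrafilter ℕ) (𝓝 (φ (f i))) :=
      ((hsub i).comp h1).mono_left hyper_le
    exact tendsto_nhds_unique (hψ1 (f i)) h2
  have hvz : ‖v' - z'‖ ≤ 4 * ε := by
    apply hnorming _ (W.sub_mem hv'W hz'W)
    intro i
    have h1 : |(ψ - JJ X v') (f i)| ≤ 2 * ε := by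
      have h2 := (ψ - JJ X v').le_opNorm (f i)
      rw [Real.norm_eq_abs] at h2
      have h3 := mul_le_mul hψv' (hf1 i) (norm_nonneg _) (by linarith)
      linarith
    have h2 : |(φ - JJ X z') (f i)| ≤ 2 * ε := by
      have h2 := (φ - JJ X z').le_opNorm (f i)
      rw [Real.norm_eq_abs] at h2
      have h3 := mul_le_mul hφz' (hf1 i) (norm_nonneg _) (by linarith)
      linarith
    have e1 : (ψ - JJ X v') (f i) = ψ (f i) - f i v' := rfl
    have e2 : (φ - JJ X z') (f i) = φ (f i) - f i z' := rfl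
    rw [e1, hψf, abs_le] at h1
    rw [e2, abs_le] at h2
    rw [map_sub, abs_le]
    constructor <;> linarith [h1.1, h1.2, h2.1, h2.2]
  have hψz : ‖ψ - JJ X z'‖ ≤ 6 * ε := by
    have h1 : ψ - JJ X z' = (ψ - JJ X v') + JJ X (v' - z') := by
      rw [map_sub]
      abel
    rw [h1]
    have h2 : ‖JJ X (v' - z')‖ = ‖v' - z'‖ := by
      have := NormedSpace.inclusionInDoubleDualLi (𝕜 := ℝ) (E := X) |>.norm_map (v' - z')
      exact this
    have h3 := norm_add_le (ψ - JJ X v') (JJ X (v' - z'))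
    linarith
  have hfin : c * r / 2 ≤ |ψ g - g z'| := by
    have h1 : Tendsto (fun n => |g (x (p n)) - g z'|) (hyperfilter ℕ : Ultrafilter ℕ)
        (𝓝 |ψ g - g z'|) := ((hψ1 g).sub_const _).abs
    exact ge_of_tendsto' h1 hpg
  have hfin2 : |ψ g - g z'| ≤ 6 * ε := by
    have h1 := (ψ - JJ X z').le_opNorm g
    rw [Real.norm_eq_abs] at h1
    have h2 := mul_le_mul hψz hg1 (norm_nonneg _) (by linarith)
    have e2 : (ψ - JJ X z') g = ψ g - g z' := rfl
    rw [e2] at h1
    linarith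
  linarith

theorem tendsto_pt (x : ℕ → X) (φ : StrongDual ℝ (StrongDual ℝ X))
    (h : ∀ f : StrongDual ℝ X, Tendsto (fun n => f (x n)) (hyperfilter ℕ : Ultrafilter ℕ)
      (𝓝 (φ f))) :
    Tendsto (fun n => pt (x n)) (hyperfilter ℕ : Ultrafilter ℕ)
      (𝓝 (Dual.app (show Dual (Dual X) from φ))) := by
  rw [tendsto_pi_nhds]
  intro f
  exact h f

theorem isLim_mem (A : Set X) (φ : StrongDual ℝ (StrongDual ℝ X)) (h : IsLim A φ) :
    (show Dual (Dual X) from φ) ∈ bidualClosure A := by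
  obtain ⟨x, hx, hφ⟩ := h
  exact mem_closure_of_tendsto (tendsto_pt x φ hφ)
    (Filter.Eventually.of_forall (fun n => ⟨x n, hx n, rfl⟩))

theorem infEDist_range (φ : Dual (Dual X)) (ε : ℝ) (hε : 0 < ε)
    (h : Metric.infEDist φ (Set.range J) < ENNReal.ofReal ε) : ∃ z : X, ‖φ - J z‖ < ε := by
  rw [Metric.infEDist_lt_iff] at h
  obtain ⟨y, ⟨z, rfl⟩, hz⟩ := h
  refine ⟨z, ?_⟩
  rw [edist_dist, ENNReal.ofReal_lt_ofReal_iff hε, dist_eq_norm] at hz
  exact hz

/-- comparison of the two measures -/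
theorem deBlasi_le (c : ℝ) (hc : 0 < c) (hP : PropP X c) (A : Set X) (hA : Bornology.IsBounded A) :
    deBlasi A ≤ ENNReal.ofReal (13 / c) * wk A := by
  obtain ⟨B, hB⟩ := hA.exists_norm_le
  have hC : (0 : ℝ) < 13 / c := by positivity
  by_contra hcon
  push Not at hcon
  have h1 : wk A < deBlasi A / ENNReal.ofReal (13 / c) := by
    rw [ENNReal.lt_div_iff_mul_lt (Or.inl (by simpa using hC)) (Or.inl ENNReal.ofReal_ne_top),
      mul_comm]
    exact hcon
  obtain ⟨b, hb1, hb2⟩ := exists_between h1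
  have hbtop : b ≠ ⊤ := (lt_top_of_lt hb2).ne
  have hb0 : b ≠ 0 := (pos_of_gt hb1).ne'
  set ε : ℝ := b.toReal with hε
  have hε0 : 0 < ε := ENNReal.toReal_pos hb0 hbtop
  have hbε : b = ENNReal.ofReal ε := (ENNReal.ofReal_toReal hbtop).symm
  obtain ⟨K, hK⟩ := finite_net c hP A B hB ε (by
    intro φ hφ
    have hmem : (show Dual (Dual X) from φ) ∈ bidualClosure A := isLim_mem A φ hφ
    have h3 : Metric.infEDist (show Dual (Dual X) from φ) (Set.range J) < ENNReal.ofReal ε := by
      rw [← hbε]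
      refine lt_of_le_of_lt ?_ hb1
      exact le_iSup₂ (f := fun (a : Dual (Dual X)) (_ : a ∈ bidualClosure A) =>
        Metric.infEDist a (Set.range J)) (show Dual (Dual X) from φ) hmem
    exact infEDist_range (show Dual (Dual X) from φ) ε hε0 h3) (13 / c * ε) (by positivity) (by
    have : c * (13 / c * ε) = 13 * ε := by
      field_simp
    rw [this]
    linarith)
  have h2 : deBlasi A ≤ ENNReal.ofReal (13 / c * ε) := by
    refine (iInf₂_le (K : Set X) ?_).trans ?_
    · exact ((K.finite_toSet).image _).isCompact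
    · refine iSup₂_le (fun a ha => ?_)
      obtain ⟨z, hz, hz'⟩ := hK a ha
      refine (Metric.infEDist_le_edist_of_mem (show z ∈ (K : Set X) from hz)).trans ?_
      rw [edist_dist, dist_eq_norm]
      exact ENNReal.ofReal_le_ofReal hz'.le
  rw [ENNReal.ofReal_mul hC.le, ← hbε] at h2
  rw [ENNReal.lt_div_iff_mul_lt (Or.inl (by simpa using hC)) (Or.inl ENNReal.ofReal_ne_top),
    mul_comm] at hb2
  exact absurd h2 (not_le.2 hb2)

/-- the quantitative Schur property -/
theorem osc_le (c : ℝ) (hc : 0 < c) (hP : PropP X c) (x : ℕ → X)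
    (hx : Bornology.IsBounded (Set.range x)) :
    osc x ≤ ENNReal.ofReal (1 / c) * Metric.ediam (clusterSet x) := by
  obtain ⟨B, hB⟩ := hx.exists_norm_le
  have hB' : ∀ n, ‖x n‖ ≤ B := fun n => hB _ ⟨n, rfl⟩
  have hC : (0 : ℝ) < 1 / c := by positivity
  by_contra hcon
  push Not at hcon
  have h1 : Metric.ediam (clusterSet x) < osc x / ENNReal.ofReal (1 / c) := by
    rw [ENNReal.lt_div_iff_mul_lt (Or.inl (by simpa using hC)) (Or.inl ENNReal.ofReal_ne_top),
      mul_comm]
    exact hcon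
  obtain ⟨b, hb1, hb2⟩ := exists_between h1
  have hbtop : b ≠ ⊤ := (lt_top_of_lt hb2).ne
  have hb0 : b ≠ 0 := (pos_of_gt hb1).ne'
  set ε : ℝ := b.toReal with hε
  have hε0 : 0 < ε := ENNReal.toReal_pos hb0 hbtop
  have hbε : b = ENNReal.ofReal ε := (ENNReal.ofReal_toReal hbtop).symm
  rw [ENNReal.lt_div_iff_mul_lt (Or.inl (by simpa using hC)) (Or.inl ENNReal.ofReal_ne_top),
    mul_comm, hbε, ← ENNReal.ofReal_mul hC.le] at hb2
  set r : ℝ := 1 / c * ε with hr
  have hr0 : 0 < r := by positivity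
  -- pairs
  have hpair : ∀ n : ℕ, ∃ p q : ℕ, n ≤ p ∧ n ≤ q ∧ r ≤ ‖x p - x q‖ := by
    intro n
    have h2 : ENNReal.ofReal r < Metric.ediam (x '' Set.Ici n) := hb2.trans_le (iInf_le _ n)
    by_contra h3
    push Not at h3
    refine absurd (Metric.ediam_le ?_) (not_le.2 h2)
    rintro _ ⟨p, hp, rfl⟩ _ ⟨q, hq, rfl⟩
    rw [edist_dist, dist_eq_norm]
    exact ENNReal.ofReal_le_ofReal (h3 p q hp hq).le
  choose p q hp hq hpq using hpair
  obtain ⟨g, hg1, hg2⟩ := hP (fun n => (1 / r) • (x (p n) - x (q n))) ((1 / r) * (2 * B)) (by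
    intro n
    rw [norm_smul, Real.norm_eq_abs, abs_of_pos (by positivity)]
    apply mul_le_mul_of_nonneg_left _ (by positivity)
    have h2 := norm_sub_le (x (p n)) (x (q n))
    have h3 := hB' (p n)
    have h4 := hB' (q n)
    linarith) (by
    intro n
    rw [norm_smul, Real.norm_eq_abs, abs_of_pos (by positivity), one_div, inv_mul_eq_div,
      le_div_iff₀ hr0, one_mul]
    exact hpq n)
  obtain ⟨m, hm1, hm2⟩ := extraction_of_frequently_atTop hg2
  obtain ⟨φ, hφ1⟩ := exists_limit (fun n => x (p (m n))) B (fun n => hB' _)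
  obtain ⟨ψ, hψ1⟩ := exists_limit (fun n => x (q (m n))) B (fun n => hB' _)
  have htend : ∀ s : ℕ → ℕ, (∀ n, n ≤ s n) →
      Tendsto (fun n => s (m n)) (hyperfilter ℕ : Ultrafilter ℕ) atTop := by
    intro s hs
    have h2 : Tendsto (fun n => s (m n)) atTop atTop :=
      tendsto_atTop_mono (fun n => hs (m n)) hm1.tendsto_atTop
    exact h2.mono_left hyper_le
  have hφc : (show Dual (Dual X) from φ) ∈ clusterSet x :=
    MapClusterPt.of_comp (htend p hp) (tendsto_pt _ φ hφ1).mapClusterPt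
  have hψc : (show Dual (Dual X) from ψ) ∈ clusterSet x :=
    MapClusterPt.of_comp (htend q hq) (tendsto_pt _ ψ hψ1).mapClusterPt
  have h2 : c * r ≤ |φ g - ψ g| := by
    have h3 : Tendsto (fun n => |g (x (p (m n))) - g (x (q (m n)))|)
        (hyperfilter ℕ : Ultrafilter ℕ) (𝓝 |φ g - ψ g|) := ((hφ1 g).sub (hψ1 g)).abs
    refine ge_of_tendsto' h3 (fun n => ?_)
    have h4 : c ≤ |g ((1 / r) • (x (p (m n)) - x (q (m n))))| := hm2 n
    rw [map_smul, smul_eq_mul, abs_mul, abs_of_pos (by positivity : 0 < 1 / r), map_sub, one_div,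
      inv_mul_eq_div, le_div_iff₀ hr0] at h4
    exact h4
  have h3 : |φ g - ψ g| ≤ ‖φ - ψ‖ := by
    have h4 := (φ - ψ).le_opNorm g
    rw [Real.norm_eq_abs] at h4
    have h5 := mul_le_mul_of_nonneg_left hg1 (norm_nonneg (φ - ψ))
    have e2 : (φ - ψ) g = φ g - ψ g := rfl
    rw [e2] at h4
    linarith
  have h4 : ENNReal.ofReal ε ≤ Metric.ediam (clusterSet x) := by
    refine le_trans ?_ (Metric.edist_le_ediam_of_mem hφc hψc)
    rw [edist_dist, dist_eq_norm]
    apply ENNReal.ofReal_le_ofReal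
    show ε ≤ ‖φ - ψ‖
    have e1 : c * r = ε := by
      rw [hr]
      field_simp
    linarith
  rw [← hbε] at h4
  exact absurd h4 (not_le.2 hb1)

end Pool.Agent.J4H86.LF
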